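import Pool.Agent.R426.QD.Sl

/-!
# The elements that satisfy the local conditions, in terms of the matrix
-/

set_option autoImplicit false
set_option linter.unusedSectionVars false

namespace Pool.Agent.N848.W

open Pool.Agent.R426.QD
open Pool.Agent.R426 Pool.Agent.R426.QC
open Pool.Agent.Y698 Pool.Agent.Y698.SG
open H667R3 Pool.Agent.W192.HK Pool.Agent.TH936.CM Pool.Agent.TH936.PU

lemma sy_one_of {ϖ x : RR} (hx : x ∉ sp ϖ) (h : ∃ y : RR, ϖ ∣ x - y ^ 2) : sy ϖ x = 1 := by
  obtain ⟨y, hy⟩ := h
  unfold sy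
  rw [if_neg hx, if_pos]
  refine ⟨Ideal.Quotient.mk (sp ϖ) y, ?_⟩
  rw [← map_mul, Ideal.Quotient.eq, Ideal.mem_span_singleton]
  rwa [← pow_two]

theorem algB {ι : Type} [DecidableEq ι] {I : Finset ι} {π : ι → RR} (hf : Bf I π)
    (hg : gd (dc π) (dr π) I ≠ 0) {d : RR} (hd : Squarefree d)
    (hsup : ∀ ρ : RR, Prime ρ → ρ ∣ d → ρ ∣ fR * ∏ i ∈ I, π i) (h4 : r4 (cj d) = 1)
    (hloc : ∀ i ∈ I, (¬ π i ∣ d ∧ ∃ y : RR, π i ∣ d - y ^ 2) ∨
      ∃ d1 m1 : RR, d = π i * d1 ∧ fR * ∏ i ∈ I, π i = π i * m1 ∧ ∃ y : RR, π i ∣ d1 * m1 - y ^ 2) :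
    d = 1 ∨ d = fR * ∏ i ∈ I, π i := by
  classical
  have hcop : ∀ a ∈ I, ∀ b ∈ I, a ≠ b → IsCoprime (π a) (π b) := fun a ha b hb hab =>
    ((hf.pr a ha).irreducible.coprime_iff_not_dvd).2 fun h1 =>
      hf.ne b hb a ha (Ne.symm hab) (Ideal.mem_span_singleton.2 h1)
  set T := I.filter (fun i => π i ∣ d) with hT
  have hTI : T ⊆ I := Finset.filter_subset _ _
  have hTd : (∏ i ∈ T, π i) ∣ d := by
    refine Finset.prod_dvd_of_coprime ?_ ?_
    · intro i hi j hj hij
      exact hcop i (hTI hi) j (hTI hj) hij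
    · intro i hi
      exact (Finset.mem_filter.1 hi).2
  set ε : Bool := decide (fR ∣ d) with hε
  have hεd : fb ε * ∏ i ∈ T, π i ∣ d := by
    by_cases h1 : fR ∣ d
    · have e1 : ε = true := by rw [hε]; exact decide_eq_true h1
      rw [e1]
      show fR * ∏ i ∈ T, π i ∣ d
      refine IsCoprime.mul_dvd ?_ h1 hTd
      exact IsCoprime.prod_right fun i hi => hf.cop7 i (hTI hi)
    · have e1 : ε = false := by rw [hε]; exact decide_eq_false h1
      rw [e1]
      show 1 * ∏ i ∈ T, π i ∣ d
      rw [one_mul]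
      exact hTd
  obtain ⟨u, hu⟩ := hεd
  have huu : IsUnit u := by
    by_contra hnu
    have hu0 : u ≠ 0 := by
      rintro rfl
      exact hd.ne_zero (by rw [hu, mul_zero])
    obtain ⟨ρ, hρ, hρu⟩ := WfDvdMonoid.exists_irreducible_factor hnu hu0
    have hρ' : Prime ρ := hρ.prime
    have h1 : ρ ∣ d := by rw [hu]; exact hρu.mul_left _
    have hass : ∀ l : RR, Prime l → ρ ∣ l → l ∣ ρ := fun l hl h2 =>
      ((hρ.associated_of_dvd hl.irreducible h2).symm).dvd
    rcases hρ'.dvd_or_dvd (hsup ρ hρ' h1) with h7 | h7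
    · have h2 := hass fR Pool.Agent.R426.QC.prime_fR h7
      have h3 : fR ∣ d := h2.trans h1
      have e1 : ε = true := by rw [hε]; exact decide_eq_true h3
      rw [e1] at hu
      have h4 : fR * fR ∣ d := by
        rw [hu]
        exact mul_dvd_mul (Dvd.intro _ rfl) (h2.trans hρu)
      exact Pool.Agent.R426.QC.prime_fR.not_isUnit (hd _ h4)
    · obtain ⟨l, hl, hρl⟩ := (hρ'.dvd_finsetProd_iff _).1 h7
      have h2 := hass _ (hf.pr l hl) hρl
      have h4 : l ∈ T := Finset.mem_filter.2 ⟨hl, h2.trans h1⟩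
      have h5 : π l * π l ∣ d := by
        rw [hu]
        exact mul_dvd_mul ((Finset.dvd_prod_of_mem π h4).mul_left _) (h2.trans hρu)
      exact (hf.pr l hl).not_isUnit (hd _ h5)
  -- the sign
  have hrf : r4 (cj fR) = 1 := by
    rw [cj_fR, map_neg]
    unfold fR
    rw [map_sub, map_mul, map_ofNat, map_one, r4_a]
    decide
  have hu1 : u = 1 := by
    rcases isUnit_iff.1 huu with h1 | h1
    · exact h1
    exfalso
    have h2 : r4 (cj (fb ε)) = 1 := by
      cases ε
      · show r4 (cj 1) = 1
        rw [map_one, map_one]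
      · exact hrf
    have h3 : r4 (cj (∏ i ∈ T, π i)) = 1 := by
      rw [map_prod, map_prod]
      exact Finset.prod_eq_one fun i hi => hf.rb i (hTI hi)
    rw [hu, h1, map_mul, map_mul, map_mul, map_mul, h2, h3, map_neg, map_one, map_neg, map_one] at h4
    revert h4
    decide
  subst hu1
  rw [mul_one] at hu
  -- the conditions at the primes
  have key : ∀ i ∈ I, (i ∉ T → (if ε then dc π i else 0) + ∑ j ∈ T, dr π i j = 0) ∧
      (i ∈ T → (if !ε then dc π i else 0) + ∑ j ∈ I \ T, dr π i j = 0) := by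
    intro i hi
    have hz := (hf.pr i hi)
    constructor
    · intro hiT
      rcases hloc i hi with ⟨-, h1⟩ | ⟨d1, m1, h1, -⟩
      · have h2 : sy (π i) d = 1 := by
          refine sy_one_of ?_ h1
          rw [hu]
          exact hf.notin hTI hi hiT ε
        rw [hu] at h2
        exact hf.lg_sy hTI hi hiT ε h2
      · exact absurd (Finset.mem_filter.2 ⟨hi, ⟨d1, h1⟩⟩) hiT
    · intro hiT
      have hiT' : i ∉ I \ T := fun h => (Finset.mem_sdiff.1 h).2 hiT
      rcases hloc i hi with ⟨h1, -⟩ | ⟨d1, m1, h1, h2, h3⟩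
      · exact absurd (Finset.mem_filter.1 hiT).2 h1
      · have hz0 := hz.ne_zero
        have e1 : d1 = fb ε * ∏ j ∈ T.erase i, π j := by
          apply mul_left_cancel₀ hz0
          rw [← h1, hu, ← Finset.mul_prod_erase T π hiT]
          ring
        have e2 : m1 = fR * ((∏ j ∈ I \ T, π j) * ∏ j ∈ T.erase i, π j) := by
          apply mul_left_cancel₀ hz0
          rw [← h2, ← Finset.prod_sdiff hTI, ← Finset.mul_prod_erase T π hiT]
          ring
        have hd1 : d1 ∉ sp (π i) := by
          rw [e1]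
          exact hf.notin ((Finset.erase_subset _ _).trans hTI) hi (Finset.notMem_erase _ _) ε
        have hP1 : fb (!ε) * ∏ j ∈ I \ T, π j ∉ sp (π i) :=
          hf.notin Finset.sdiff_subset hi hiT' (!ε)
        have e3 : d1 * m1 = (fb (!ε) * ∏ j ∈ I \ T, π j) * (d1 * d1) := by
          rw [e2, e1]
          cases ε
          · show _ = (fR * ∏ j ∈ I \ T, π j) * _
            show fb false * _ * _ = _
            rw [show fb false = 1 from rfl]
            ring
          · show _ = (fb false * ∏ j ∈ I \ T, π j) * _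
            rw [show fb true = fR from rfl, show fb false = 1 from rfl]
            ring
        have h4 : sy (π i) (d1 * m1) = 1 := by
          refine sy_one_of ?_ h3
          rw [e3, Ideal.mem_span_singleton]
          intro h5
          rw [Ideal.mem_span_singleton] at hd1 hP1
          rcases hz.dvd_or_dvd h5 with h6 | h6
          · exact hP1 h6
          · exact (hz.dvd_or_dvd h6).elim hd1 hd1
        have h5 : sy (π i) (d1 * d1) = 1 := by
          rw [sy_mulO hz (hf.od i hi)]
          rcases sy_sgn hd1 with h6 | h6 <;> rw [h6] <;> norm_num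
        rw [e3, sy_mulO hz (hf.od i hi), h5, mul_one] at h4
        exact hf.lg_sy Finset.sdiff_subset hi hiT' (!ε) h4
  cases hεe : ε with
  | false =>
    left
    have hT0 : T = ∅ := by
      refine ns_of_gd hg hTI (fun i hi => ?_) (fun i hi => ?_)
      · rw [Finset.mem_sdiff] at hi
        have := (key i hi.1).1 hi.2
        rw [hεe] at this
        simpa using this
      · have := (key i (hTI hi)).2 hi
        rw [hεe] at this
        simpa using this
    rw [hu, hεe, hT0, Finset.prod_empty, show fb false = 1 from rfl, one_mul]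
  | true =>
    right
    have hT0 : I \ T = ∅ := by
      refine ns_of_gd hg Finset.sdiff_subset (fun i hi => ?_) (fun i hi => ?_)
      · rw [Finset.sdiff_sdiff_eq_self hTI] at hi
        have := (key i (hTI hi)).2 hi
        rw [hεe] at this
        simpa using this
      · rw [Finset.sdiff_sdiff_eq_self hTI]
        rw [Finset.mem_sdiff] at hi
        have := (key i hi.1).1 hi.2
        rw [hεe] at this
        simpa using this
    have hTI' : T = I := Finset.Subset.antisymm hTI (Finset.sdiff_eq_empty_iff_subset.1 hT0)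
    rw [hu, hεe, hTI', show fb true = fR from rfl]

end Pool.Agent.N848.W
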