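import Pool.Agent.N848.W.KF

/-!
# The density in terms of the elements of `ℤ[ω]`
-/

set_option autoImplicit false
set_option linter.unusedSectionVars false

open Filter

namespace Pool.Agent.N848.W

open Pool.Agent.R426
open Pool.Agent.Y698

open Pool.Agent.R426.QD in
/-- the trivial twist -/
theorem gd_one : Gd (1 : OZ) := by
  classical
  refine gd_of (I := (∅ : Finset RR)) (π := fun p => p)
    ⟨⟨fun i hi => absurd hi (Finset.notMem_empty i), fun i hi => absurd hi (Finset.notMem_empty i)⟩,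
      fun i hi => absurd hi (Finset.notMem_empty i), by simp, ⟨0, by simp⟩⟩ ?_ (by simp)
  unfold Pool.Agent.Y698.SG.gd
  rw [Matrix.det_isEmpty]
  exact one_ne_zero

/-- the norm -/
def nm (D : OZ) : ℤ := D.re ^ 2 + D.re * D.im + 2 * D.im ^ 2

lemma nrm_th (D : OZ) : ((QK.nrm (th D) : ℕ) : ℤ) = nm D := by
  have h := cXY_of (r := th D) (x := D.re) (y := D.im) (by
    rw [th_apply]
    push_cast
    rfl)
  rw [QK.nrm_eq', h.1, h.2]
  rfl

lemma ncard_th (X : ℕ) {P : OZ → Prop} {Q : RR → Prop} (h : ∀ D, P D ↔ Q (th D)) :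
    {D : OZ | nm D ≤ X ∧ P D}.ncard = {x : RR | QK.nrm x ≤ X ∧ Q x}.ncard := by
  rw [← Set.ncard_image_of_injective {D : OZ | nm D ≤ X ∧ P D} th.injective]
  congr 1
  ext x
  simp only [Set.mem_ofPred_eq, Set.mem_image]
  constructor
  · rintro ⟨D, ⟨h1, h2⟩, rfl⟩
    rw [← nrm_th] at h1
    exact ⟨by exact_mod_cast h1, (h D).1 h2⟩
  · rintro ⟨h1, h2⟩
    refine ⟨th.symm x, ⟨?_, ?_⟩, th.apply_symm_apply x⟩
    · rw [← nrm_th, th.apply_symm_apply]
      exact_mod_cast h1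
    · rw [h, th.apply_symm_apply]
      exact h2

lemma fin_nm (X : ℕ) : {D : OZ | nm D ≤ X}.Finite := by
  have h1 := (QK.fin_norm_le X).preimage (th.injective.injOn (s := th ⁻¹' {a : RR | QK.nrm a ≤ X}))
  refine h1.subset fun D hD => ?_
  show QK.nrm (th D) ≤ X
  have h2 : nm D ≤ X := hD
  rw [← nrm_th] at h2
  exact_mod_cast h2

/-- **the density** -/
theorem den : Tendsto (fun X : ℕ => ({D : OZ | nm D ≤ X ∧ QK.GoodE (th D)}.ncard : ℝ) /
    ({D : OZ | nm D ≤ X ∧ Cls D}.ncard : ℝ)) atTop (nhds QK.c2) := by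
  have h1 := QK.t_DEN
  unfold QK.S_DEN at h1
  refine h1.congr fun X => ?_
  rw [ncard_th X (P := fun D => QK.GoodE (th D)) (Q := QK.GoodE) fun _ => Iff.rfl,
    ncard_th X (P := Cls) (Q := QK.ClsE) fun _ => cls_th.symm]

theorem low : ∃ δ : ℝ, 0 < δ ∧ ∀ᶠ X : ℕ in atTop,
    δ * X ≤ ({D : OZ | nm D ≤ X ∧ QK.GoodE (th D)}.ncard : ℝ) := by
  obtain ⟨δ, X₀, hδ, h1⟩ := QK.good_low
  refine ⟨δ, hδ, ?_⟩
  filter_upwards [eventually_ge_atTop X₀] with X hX
  rw [ncard_th X (P := fun D => QK.GoodE (th D)) (Q := QK.GoodE) fun _ => Iff.rfl]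
  exact h1 X hX

end Pool.Agent.N848.W
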