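import Pool.Agent.N848.W.AlgT
import Pool.Agent.R426.QK.Fin

/-!
# The criterion over the number field
-/

set_option autoImplicit false
set_option linter.unusedSectionVars false

open NumberField

namespace Pool.Agent.N848.W

open Pool.Agent.R426
open Pool.Agent.R426.QC
open Pool.Agent.Y698 Pool.Agent.Y698.SG
open Pool.Agent.TH841.NF.D (Sha)

/-- the twist by `d` -/
def EC {F : Type} [Field F] (d : F) : WeierstrassCurve F :=
  ⟨1, -((3 * d + 1) / 4), 0, -2 * d ^ 2, -d ^ 3⟩

/-- finitely many points, no element of order two in the Tate-Shafarevich group -/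
def NS {F : Type} [Field F] [NumberField F] (E : WeierstrassCurve F) : Prop :=
  Finite E.toAffine.Point ∧ ∀ x : Sha E, 2 • x = 0 → x = 0

/-- the class -/
structure Cls (D : OZ) : Prop where
  sqf : Squarefree D
  four : (4 : OZ) ∣ D - 1
  n7 : ¬ R384.s7 ∣ D

lemma cls_th {D : OZ} : QK.ClsE (th D) ↔ Cls D := by
  have h1 : (4 : RR) ∣ th D - 1 ↔ (4 : OZ) ∣ D - 1 := by
    rw [← e_dvd th, map_sub, map_one, map_ofNat]
  have h2 : fR ∣ th D ↔ R384.s7 ∣ D := by
    rw [← th_s7, e_dvd th]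
  unfold QK.ClsE
  rw [e_sqf, h1, h2]
  exact ⟨fun ⟨a, b, c⟩ => ⟨a, b, c⟩, fun h => ⟨h.sqf, h.four, h.n7⟩⟩

/-- **the criterion** -/
theorem crit {F : Type} [Field F] [NumberField F] {a : F} (ha : a ^ 2 = a - 2)
    (hF : Module.finrank ℚ F = 2) {D : OZ} (hD : Cls D) {d : F}
    (hd : d = (D.re : F) + (D.im : F) * a) :
    (NS (EC d) ↔ QK.GoodE (th D)) ∧ (NS (EC d) → Gd D) := by
  classical
  obtain ⟨e, he⟩ := exists_iso ha hF
  set a' : 𝓞 F := e aR with ha'
  have haa : (a' : F) = a := by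
    show algebraMap (𝓞 F) F (e aR) = a
    rw [he, ev_aR]
  have hef : e fR = 2 * a' - 1 := by
    unfold fR
    rw [map_sub, map_mul, map_ofNat, map_one]
  have hdv : ∀ x y : RR, e x ∣ e y ↔ x ∣ y := fun x y => map_dvd_iff e
  have hcl := cls_th.2 hD
  set D' : 𝓞 F := e (th D) with hD'
  have hDc : algebraMap (𝓞 F) F D' = d := by
    rw [hD', he, hd, th_apply, map_add, map_mul, map_intCast, map_intCast, ev_aR]
  have hsq : Squarefree D' := by
    intro y hy
    have h1 : e.symm y * e.symm y ∣ th D := by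
      rw [← map_mul, ← hdv, e.apply_symm_apply]
      exact hy
    have h2 := (isUnit_map_iff e (e.symm y)).2 (hcl.1 _ h1)
    rwa [e.apply_symm_apply] at h2
  have h4 : (4 : 𝓞 F) ∣ D' - 1 := by
    have h1 := (hdv 4 (th D - 1)).2 hcl.2.1
    rwa [map_sub, map_one, map_ofNat] at h1
  have h7 : ¬ (2 * a' - 1) ∣ D' := by
    rw [← hef, hdv]
    exact hcl.2.2
  obtain ⟨S, hSp, hSD, hE⟩ := QD.exists_S e rfl h4 hsq h7
  obtain ⟨J, hJ⟩ := hE.m4
  have hprod : th D = ∏ p ∈ S, QC.pe e p := by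
    have h1 : ∏ p ∈ S, QC.pe e p = e.symm (∏ p ∈ S, p) := (map_prod e.symm _ _).symm
    rw [h1, hSD, hD', e.symm_apply_apply]
  have hmat : gd (mc (QC.pe e)) (mr (QC.pe e)) S = (QC.matK (2 * a' - 1) S).det :=
    QD.mat_gdD e hef hE
  have hDj : d = 1 + 4 * em e J := by
    have h1 : em e (th D) = d := hDc
    rw [← h1, hprod, hJ, map_add, map_mul, map_one, map_ofNat]
  have hcur : EC d = EX F (em e J) := by
    unfold EC EX
    rw [hDj]
    congr 1
    field_simp
    ring
  have hiff : NS (EC d) ↔ gd (mc (QC.pe e)) (mr (QC.pe e)) S ≠ 0 := by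
    rw [hcur]
    exact ⟨fun h h0 => QD.convD e hE h0 hJ h.1 h.2, fun h => QD.sha_rankD e hE h hJ⟩
  constructor
  · rw [hiff, hmat]
    unfold QK.GoodE
    rw [and_iff_right hcl]
    exact QK.det_iff e rfl hef hcl hSp hE
  · intro h
    exact gd_of hE (hiff.1 h) hprod

/-! ### The field `ℚ(w)` -/

open Polynomial in
lemma finrank_two {w : AlgebraicClosure ℚ} (hw : w ^ 2 = w - 2) :
    Module.finrank ℚ (IntermediateField.adjoin ℚ {w}) = 2 := by
  have hint : IsIntegral ℚ w := Algebra.IsIntegral.isIntegral w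
  rw [IntermediateField.adjoin.finrank hint]
  apply le_antisymm
  · have hp : (X ^ 2 - X + C 2 : ℚ[X]).Monic := by monicity!
    have h1 := minpoly.min ℚ w hp (by
      simp only [map_add, map_sub, map_pow, aeval_X, aeval_C]
      rw [hw]
      simp)
    have h2 : (X ^ 2 - X + C 2 : ℚ[X]).degree = 2 := by compute_degree!
    rw [h2] at h1
    exact natDegree_le_of_degree_le h1
  · rw [minpoly.two_le_natDegree_iff hint]
    rintro ⟨q, hq⟩
    have h1 : q ^ 2 = q - 2 := by
      apply (algebraMap ℚ (AlgebraicClosure ℚ)).injective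
      rw [map_pow, map_sub, hq, hw, map_ofNat]
    nlinarith [sq_nonneg (2 * q - 1)]

end Pool.Agent.N848.W
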