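import Pool.Agent.N848.W.Pl
import Pool.Agent.R384.X.Loc7

/-!
# The vanishing of the Selmer groups
-/

set_option autoImplicit false
set_option linter.unusedSectionVars false

namespace Pool.Agent.N848.W

open Pool.Agent.R384
open Pool.Agent.Y715.Red Pool.Agent.Y715.Nr Pool.Agent.W237.RK
open Pool.Agent.Y715.Gi (QB KK GK i₀_mem gk_fix)
open Pool.Agent.Y715.Df (Cmp exists_cmp)
open Pool.Agent.Y715.Lc (norm_two_odd)

open scoped Classical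

/-- The algebraic condition: the elements that satisfy the local conditions are `1` and `m`. -/
def Alg (m : OO) (w4 : ZMod 4) (hw4 : w4 ^ 2 = w4 - 2) : Prop :=
  ∀ δ : OO, Squarefree δ → (∀ π, Prime π → π ∣ δ → π ∣ m) → em hw4 δ = 1 →
    (∀ π, Prime π → π ∣ m → ¬ π ∣ s7 → (¬ π ∣ δ ∧ Sqm π δ) ∨
      ∃ δ1 m1, δ = π * δ1 ∧ m = π * m1 ∧ Sqm π (δ1 * m1)) → δ = 1 ∨ δ = m

variable {i₀ : QB} (hi : i₀ ^ 2 = i₀ - 2) {χ : GK i₀ →* ℤ_[2]ˣ} {m : OO} {r t : QB}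

lemma seven_eq : ((7 : ℕ) : OO) = -(s7 * s7) := by
  ext
  · rw [QuadraticAlgebra.re_natCast]; simp [s7]
  · rw [QuadraticAlgebra.im_natCast]; simp [s7]

/-- the local condition at a prime divisor of `m` -/
lemma loc_gen (cd : ChiD hi χ m r) {c : GK i₀ → ℚ_[2]} (hc : Coc χ c) (hc1 : ∀ σ, ‖c σ‖ ≤ 1)
    {q m1 : OO} (hq : Prime q) (h2q : ¬ q ∣ 2) (h7q : ¬ q ∣ s7) (hm : m = q * m1) (hq1 : ¬ q ∣ m1)
    {p : ℕ} [Fact p.Prime] {ι : QB →ₐ[ℚ] PadicAlgCl p} (hι : ‖em (iw hi ι) q‖ < 1)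
    (hD : CobOn χ (II ι) c) {δ : OO} (hδ : Squarefree δ) {s : QB}
    (hs : s ^ 2 = em hi δ) (hk : ∀ σ : GK i₀, σ s = s ↔ md c σ = 0) :
    (¬ q ∣ δ ∧ Sqm q δ) ∨ ∃ δ1 m1, δ = q * δ1 ∧ m = q * m1 ∧ Sqm q (δ1 * m1) := by
  have hp2 : p ≠ 2 := fun h => h2q ((two_of_dvd hq (iw hi ι) hι).1 h)
  have hp7 : p ≠ 7 := by
    rintro rfl
    have h1 := (dvd_iff (iw hi ι) hq hι ((7 : ℕ) : OO)).2 (p_lt (iw hi ι))
    rw [seven_eq, dvd_neg] at h1
    exact h7q ((hq.dvd_or_dvd h1).elim id id)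
  obtain ⟨σ₀, h0, h2⟩ := exists_ram hi cd hq hm hq1 hι
  have hχ : vl χ σ₀ = -1 := by
    obtain ⟨τ, hτ, hin⟩ := h0
    unfold vl
    rw [(cd.inert p ι τ σ₀ hp2 hτ hin).2 h2]
    simp
  have hD' : CobOn χ (DD ι) c := dec_of_inert hc hD h0 hχ fun τ hτ => conj_mem h0 hτ
  have hsq : (ι s) ^ 2 = em (iw hi ι) δ := by rw [← map_pow, hs, ι_em]
  rcases loc_dich hi cd hc1 hD' (II_sub h0) h2 hs hk with h | h
  · left
    refine ⟨not_dvd_of_fix (iw hi ι) hq hι hδ hsq fun τ _ hτ => fix_D h τ hτ, ?_⟩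
    exact resid (iw hi ι) hp2 hp7 hq hι hsq (fix_D h)
  · right
    have hsr : (s * r) ^ 2 = em hi (δ * m) := by rw [mul_pow, hs, cd.hr, map_mul]
    have hdv : q ∣ δ := by
      by_contra hcon
      refine no_simple (iw hi ι) hq hι (t := δ * m1) (s := ι (s * r))
        (fun h => (hq.dvd_or_dvd h).elim hcon hq1) ?_ fun τ _ hτ => fix_D h τ hτ
      rw [← map_pow, hsr, ι_em, hm]
      congr 1
      ring
    obtain ⟨δ1, hδ1⟩ := hdv
    refine ⟨δ1, m1, hδ1, hm, ?_⟩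
    have hq0 : em (iw hi ι) q ≠ 0 := em_ne _ hq.ne_zero
    refine resid (iw hi ι) hp2 hp7 hq hι (y := ι (s * r) / em (iw hi ι) q) ?_ ?_
    · rw [div_pow, ← map_pow, hsr, ι_em, hδ1, hm, div_eq_iff (pow_ne_zero _ hq0), ← map_pow,
        ← map_mul]
      congr 1
      ring
    · intro τ hτ
      rw [map_div₀, fix_D h τ hτ, em_fix (iw hi ι) hτ]

section sizes

variable {w : PadicAlgCl 2} (hw : w ^ 2 = w - 2)

lemma em_om : em hw om = w := by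
  rw [em_apply]
  simp [om]

lemma em_s7 : em hw s7 = 2 * w - 1 := by
  rw [em_apply]
  show ((-1 : ℤ) : PadicAlgCl 2) + ((2 : ℤ) : PadicAlgCl 2) * w = _
  push_cast
  ring

lemma n32 : ‖(32 : PadicAlgCl 2)‖ = 1 / 32 := by
  have e : (32 : PadicAlgCl 2) = 2 ^ 5 := by norm_num
  rw [e, norm_pow, n2]
  norm_num

lemma five_om (h : ‖em hw om‖ < 1) : ‖em hw (-(1 - om)) - 5‖ ≤ 1 / 8 := by
  rw [em_om] at h
  have h1 : ‖w + 5‖ = 1 := by
    have h5 : ‖((5 : ℤ) : PadicAlgCl 2)‖ = 1 := odd_norm (by norm_num)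
    push_cast at h5
    rw [add_comm, eq_of_lt, h5]
    rwa [h5]
  have e : em hw (-(1 - om)) - 5 = w - 6 := by rw [map_neg, map_sub, map_one, em_om]; ring
  rw [e]
  have h2 : ‖(w - 6) * (w + 5)‖ = 1 / 32 := by
    have e2 : (w - 6) * (w + 5) = -32 := by linear_combination hw
    rw [e2, norm_neg, n32]
  rw [norm_mul, h1, mul_one] at h2
  rw [h2]
  norm_num

lemma five_om' (h : ‖em hw (1 - om)‖ < 1) : ‖em hw (-om) - 5‖ ≤ 1 / 8 := by
  rw [map_sub, map_one, em_om] at h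
  have h1 : ‖w - 6‖ = 1 := by
    have h5 : ‖((-5 : ℤ) : PadicAlgCl 2)‖ = 1 := odd_norm (by norm_num)
    push_cast at h5
    have e : w - 6 = -5 + -(1 - w) := by ring
    rw [e, eq_of_lt, h5]
    rwa [h5, norm_neg]
  have e : em hw (-om) - 5 = -(w + 5) := by rw [map_neg, em_om]; ring
  rw [e, norm_neg]
  have h2 : ‖(w - 6) * (w + 5)‖ = 1 / 32 := by
    have e2 : (w - 6) * (w + 5) = -32 := by linear_combination hw
    rw [e2, norm_neg, n32]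
  rw [norm_mul, h1, one_mul] at h2
  rw [h2]
  norm_num

lemma half_of {x y : PadicAlgCl 2} (hxy : x * y = 2) (h : ‖x‖ < 1) (h' : ‖x + y - 1‖ = 0) :
    ‖x‖ ≤ 1 / 2 := by
  have e : x + y - 1 = 0 := norm_eq_zero.1 h'
  have hy : ‖y‖ = 1 := by
    have e2 : y = 1 + -x := by linear_combination e
    rw [e2, eq_of_lt, norm_one]
    rwa [norm_neg, norm_one]
  have h1 := congrArg norm hxy
  rw [norm_mul, hy, mul_one, n2] at h1
  exact h1.le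

/-- the sizes of the elements `s7 P` -/
lemma s7_sizes {P : OO} (hP : (4 : OO) ∣ P - 1) :
    (‖em hw om‖ < 1 → ‖em hw (s7 * P) + 1‖ ≤ 1 / 4) ∧
    (‖em hw (1 - om)‖ < 1 → ‖em hw (s7 * P) - 1‖ ≤ 1 / 4) := by
  obtain ⟨J, hJ⟩ := hP
  have hPe : em hw P = 1 + 4 * em hw J := by
    have : P = 1 + 4 * J := by linear_combination hJ
    rw [this, map_add, map_one, map_mul, map_ofNat]
  have h4 : ‖4 * em hw J‖ ≤ 1 / 4 := by
    have e : (4 : PadicAlgCl 2) = 2 * 2 := by norm_num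
    rw [norm_mul, e, norm_mul, n2]
    have := em_le hw J
    linarith
  have hPn : ‖em hw P‖ ≤ 1 := em_le hw P
  have hw2 : w * (1 - w) = 2 := by linear_combination -hw
  constructor
  · intro h
    rw [em_om] at h
    have h1 : ‖w‖ ≤ 1 / 2 := half_of hw2 h (by ring_nf; exact norm_zero)
    have e : em hw (s7 * P) + 1 = 2 * w * em hw P - 4 * em hw J := by
      rw [map_mul, em_s7, hPe]
      ring
    rw [e]
    refine sub_le ?_ h4
    rw [norm_mul, norm_mul, n2]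
    nlinarith [norm_nonneg w, norm_nonneg (em hw P)]
  · intro h
    rw [map_sub, map_one, em_om] at h
    have h1 : ‖1 - w‖ ≤ 1 / 2 := half_of (y := w) (by rw [mul_comm]; exact hw2) h
      (by ring_nf; exact norm_zero)
    have e : em hw (s7 * P) - 1 = 4 * em hw J - 2 * (1 - w) * em hw P := by
      rw [map_mul, em_s7, hPe]
      ring
    rw [e]
    refine sub_le h4 ?_
    rw [norm_mul, norm_mul, n2]
    nlinarith [norm_nonneg (1 - w), norm_nonneg (em hw P)]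

end sizes

/-- **The vanishing theorem.** -/
theorem mainG {P v : OO} (hP : (4 : OO) ∣ P - 1) (hPs : Squarefree P) (hP7 : ¬ s7 ∣ P)
    (hm : m = v * (s7 * P)) (cd : ChiD hi χ m r) (he : E8 χ t) {ϖ ϖ' : OO} {w4 : ZMod 4}
    (hw4 : w4 ^ 2 = w4 - 2)
    (hϖ : (v = -1 ∧ ϖ = om ∧ ϖ' = 1 - om ∧ w4 = 2) ∨ (v = 1 ∧ ϖ = 1 - om ∧ ϖ' = om ∧ w4 = 3))
    (ht : t ^ 2 = em hi (-ϖ')) (hAlg : Alg m w4 hw4)
    {c : GK i₀ → ℚ_[2]} (hc : Coc χ c)
    (hodd : ∀ (p : ℕ) [Fact p.Prime] (ι : QB →ₐ[ℚ] PadicAlgCl p), p ≠ 2 → CobOn χ (II ι) c)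
    (hstr : ∀ ι : QB →ₐ[ℚ] PadicAlgCl 2, ‖ι (em hi ϖ)‖ < 1 → CobOn χ (DD ι) c) :
    ∃ y : ℚ_[2], ∀ σ, c σ = (vl χ σ - 1) * y := by
  classical
  by_contra hn
  have hϖp : Prime ϖ ∧ Prime ϖ' ∧ ϖ * ϖ' = 2 := by
    rcases hϖ with ⟨-, rfl, rfl, -⟩ | ⟨-, rfl, rfl, -⟩
    · exact ⟨prime_om, prime_om', om_mul⟩
    · exact ⟨prime_om', prime_om, by rw [mul_comm]; exact om_mul⟩
  obtain ⟨hp1, hp2', hϖ2⟩ := hϖp
  have h2z : ∀ {z : OO}, Prime z → z ∣ 2 → z ∣ ϖ ∨ z ∣ ϖ' := fun hz h => by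
    rw [← hϖ2] at h
    exact hz.dvd_or_dvd h
  have hv1 : IsUnit v := by
    rcases hϖ with ⟨h, -⟩ | ⟨h, -⟩
    · rw [h]; exact isUnit_one.neg
    · rw [h]; exact isUnit_one
  have hs7 := prime_s7
  have h7sq : Squarefree (s7 * P) := by
    rw [squarefree_mul_iff]
    refine ⟨((hs7.irreducible.coprime_iff_not_dvd).2 hP7).isRelPrime, hs7.squarefree, hPs⟩
  have hmsq : Squarefree m := by
    rw [hm]
    obtain ⟨u, hu⟩ := hv1
    rw [← hu]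
    have h1 : Associated (s7 * P) (↑u * (s7 * P)) := ⟨u, by ring⟩
    exact h1.squarefree_iff.1 h7sq
  -- sizes
  have hsz : ∀ ι : QB →ₐ[ℚ] PadicAlgCl 2,
      (‖em (iw hi ι) ϖ‖ < 1 → ‖em (iw hi ι) m - 1‖ ≤ 1 / 4 ∧ ‖em (iw hi ι) (-ϖ') - 5‖ ≤ 1 / 8) ∧
      (‖em (iw hi ι) ϖ'‖ < 1 → ‖em (iw hi ι) m + 1‖ ≤ 1 / 4 ∧ ‖em (iw hi ι) (-ϖ) - 5‖ ≤ 1 / 8) := by
    intro ι
    obtain ⟨a1, a2⟩ := s7_sizes (iw hi ι) hP
    rcases hϖ with ⟨h1, h2, h3, -⟩ | ⟨h1, h2, h3, -⟩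
    · rw [hm, h1, h2, h3]
      refine ⟨fun h => ⟨?_, five_om _ h⟩, fun h => ⟨?_, five_om' _ h⟩⟩
      · have e : em (iw hi ι) (-1 * (s7 * P)) - 1 = -(em (iw hi ι) (s7 * P) + 1) := by
          rw [neg_one_mul, map_neg]; ring
        rw [e, norm_neg]
        exact a1 h
      · have e : em (iw hi ι) (-1 * (s7 * P)) + 1 = -(em (iw hi ι) (s7 * P) - 1) := by
          rw [neg_one_mul, map_neg]; ring
        rw [e, norm_neg]
        exact a2 h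
    · rw [hm, h1, h2, h3, one_mul]
      exact ⟨fun h => ⟨a2 h, five_om' _ h⟩, fun h => ⟨a1 h, five_om _ h⟩⟩
  have hm2 : ∀ {z : OO}, Prime z → z ∣ m → ¬ z ∣ 2 := by
    intro z hz hzm h2
    have hz7 : ¬ z ∣ s7 := by
      intro h
      have h3 : z ∣ ((7 : ℕ) : OO) := by
        rw [seven_eq, dvd_neg]
        exact h.mul_right _
      apply hz.not_isUnit
      have e : (1 : OO) = ((7 : ℕ) : OO) - 2 * 3 := by push_cast; norm_num
      exact isUnit_of_dvd_one (by rw [e]; exact dvd_sub h3 (h2.mul_right _))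
    have hzP : ¬ z ∣ P := by
      intro h
      obtain ⟨J, hJ⟩ := hP
      apply hz.not_isUnit
      have e : (1 : OO) = P - 2 * (2 * J) := by linear_combination -hJ
      exact isUnit_of_dvd_one (by rw [e]; exact dvd_sub h (h2.mul_right _))
    rw [hm] at hzm
    rcases hz.dvd_or_dvd hzm with h | h
    · exact hz.not_isUnit (isUnit_of_dvd_unit h hv1)
    · exact (hz.dvd_or_dvd h).elim hz7 hzP
  -- an element that moves the square root of `m`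
  obtain ⟨σ₀, hσ₀⟩ : ∃ σ₀ : GK i₀, σ₀ r = -r := by
    obtain ⟨p, hpf, ι, hι⟩ := exists_emb hi hs7
    rw [ι_em] at hι
    obtain ⟨σ, -, hσ⟩ := exists_ram hi cd hs7 (m1 := v * P) (by rw [hm]; ring) (fun h => by
      rcases hs7.dvd_or_dvd h with h1 | h1
      · exact hs7.not_isUnit (isUnit_of_dvd_unit h1 hv1)
      · exact hP7 h1) hι
    exact ⟨σ, hσ⟩
  -- normalization
  obtain ⟨a, y, ha, hint, hmin⟩ := normalize hc (cd.big hi hσ₀) hn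
  set c' : GK i₀ → ℚ_[2] := fun σ => a * c σ + (vl χ σ - 1) * y with hc'
  have hcc : Coc χ c' := hc.twist cd.cont a y
  have hodd' : ∀ (p : ℕ) [Fact p.Prime] (ι : QB →ₐ[ℚ] PadicAlgCl p), p ≠ 2 →
      CobOn χ (II ι) c' := fun p _ ι hp => (hodd p ι hp).twist a y
  -- Kummer theory
  obtain ⟨δ, hδ, hkum⟩ := kum hi (md c') (md_cont hcc) (md_mul hcc hint)
  obtain ⟨s, hs⟩ : ∃ s : QB, s ^ 2 = em hi δ := IsAlgClosed.exists_pow_nat_eq _ (by norm_num)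
  have hk : ∀ σ : GK i₀, σ s = s ↔ md c' σ = 0 := hkum s hs
  have hs0 : s ≠ 0 := by
    intro h
    rw [h, zero_pow two_ne_zero] at hs
    exact hδ.ne_zero (em_inj hi hs.symm)
  -- the strict place
  obtain ⟨p, hpf, ι, hι⟩ := exists_emb hi hp1
  have hp2 : p = 2 := by
    rw [ι_em] at hι
    exact (two_of_dvd hp1 (iw hi ι) hι).2 ⟨_, hϖ2.symm⟩
  subst hp2
  have hι' : ‖em (iw hi ι) ϖ‖ < 1 := by rwa [ι_em] at hι
  have hstr' : CobOn χ (DD ι) c' := (hstr ι hι).twist a y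
  have hu := strict_unr hi cd he ht (neg_ne_zero.2 hp2'.ne_zero) ((hsz ι).1 hι').1
    ((hsz ι).1 hι').2 hint hstr'
  have hsι : (ι s) ^ 2 = em (iw hi ι) δ := by rw [← map_pow, hs, ι_em]
  have hfixI : ∀ τ : Au 2, Inert τ → τ (ι i₀) = ι i₀ → τ (ι s) = ι s := fun τ hin hτ =>
    fix_I (fun σ hσ => (hk σ).2 (hu σ hσ)) τ hin hτ
  have hst1 : ¬ ϖ ∣ δ := not_dvd_of_fix (iw hi ι) hp1 hι' hδ hsι hfixI
  have hst2 : ‖em (iw hi ι) δ - 1‖ ≤ 1 / 4 :=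
    ur_conv (iw hi ι) hsι ((dvd_iff (iw hi ι) hp1 hι' δ).not.1 hst1) hfixI
  -- the other place above two
  have hst3 : ¬ ϖ' ∣ δ := by
    obtain ⟨p, hpf, κ, hκ⟩ := exists_emb hi hp2'
    have hp2 : p = 2 := by
      rw [ι_em] at hκ
      exact (two_of_dvd hp2' (iw hi κ) hκ).2 ⟨ϖ, by rw [← hϖ2, mul_comm]⟩
    subst hp2
    have hκ' : ‖em (iw hi κ) ϖ'‖ < 1 := by rwa [ι_em] at hκ
    obtain ⟨k, hk2⟩ := free_even hi cd he hϖ2 ht ((hsz κ).2 hκ').1 ((hsz κ).2 hκ').2 hcc hint hs0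
      (fun σ => rt_or hi hs σ) hk
    rintro ⟨δ1, hδ1⟩
    have hδ2 : ¬ ϖ' ∣ δ1 := by
      rintro ⟨x, rfl⟩
      exact hp2'.not_isUnit (hδ ϖ' ⟨x, by rw [hδ1]; ring⟩)
    have h1 : ‖κ s‖ ^ 2 = ((2 : ℕ) : ℝ)⁻¹ := by
      rw [← norm_pow, ← map_pow, hs, ι_em, hδ1, map_mul, norm_mul,
        norm_prime (iw hi κ) (by norm_num) hp2' hκ',
        eq_one_of_not_lt (iw hi κ) ((dvd_iff (iw hi κ) hp2' hκ' δ1).not.1 hδ2), mul_one]
    rw [hk2, ← zpow_natCast, ← zpow_mul, ← zpow_neg_one] at h1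
    push_cast at h1
    have h4 := zpow_right_injective₀ (a := (2 : ℝ)) (by norm_num) (by norm_num) h1
    omega
  -- the prime divisors of `δ`
  have hsup : ∀ π, Prime π → π ∣ δ → π ∣ m := by
    intro π hπ hπδ
    by_contra hπm
    have hπ2 : ¬ π ∣ 2 := by
      intro h
      rcases h2z hπ h with h1 | h1
      · exact hst1 (((hπ.dvd_prime_iff_associated hp1).1 h1).symm.dvd.trans hπδ)
      · exact hst3 (((hπ.dvd_prime_iff_associated hp2').1 h1).symm.dvd.trans hπδ)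
    obtain ⟨l, hl, κ, hκ⟩ := exists_emb hi hπ
    rw [ι_em] at hκ
    have hl2 : l ≠ 2 := fun h => hπ2 ((two_of_dvd hπ (iw hi κ) hκ).1 h)
    have h1 := unram hi cd hl2 (hodd' l κ hl2) ((dvd_iff (iw hi κ) hπ hκ m).not.1 hπm)
    refine not_dvd_of_fix (iw hi κ) hπ hκ hδ (s := κ s) ?_ ?_ hπδ
    · rw [← map_pow, hs, ι_em]
    · intro τ hin hτ
      exact fix_I (fun σ hσ => (hk σ).2 (h1 σ hσ)) τ hin hτ
  -- the prime divisors of `m`
  have hloc : ∀ π, Prime π → π ∣ m → ¬ π ∣ s7 → (¬ π ∣ δ ∧ Sqm π δ) ∨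
      ∃ δ1 m1, δ = π * δ1 ∧ m = π * m1 ∧ Sqm π (δ1 * m1) := by
    rintro π hπ ⟨m1, hm1⟩ hπ7
    obtain ⟨l, hl, κ, hκ⟩ := exists_emb hi hπ
    rw [ι_em] at hκ
    have hπ2 := hm2 hπ ⟨m1, hm1⟩
    have hl2 : l ≠ 2 := fun h => hπ2 ((two_of_dvd hπ (iw hi κ) hκ).1 h)
    refine loc_gen hi cd hcc hint hπ hπ2 hπ7 hm1 ?_ hκ (hodd' l κ hl2) hδ hs hk
    rintro ⟨x, rfl⟩
    exact hπ.not_isUnit (hmsq π ⟨x, by rw [hm1]; ring⟩)
  -- modulo four
  have hδ4 : em hw4 δ = 1 := by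
    refine em_four_one (iw hi ι) hw4 ?_ hι' hst2
    rcases hϖ with ⟨-, h2, -, h4⟩ | ⟨-, h2, -, h4⟩
    · exact Or.inl ⟨h2, h4⟩
    · exact Or.inr ⟨h2, h4⟩
  rcases hAlg δ hδ hsup hδ4 hloc with h | h
  · -- `δ = 1`
    rw [h, map_one] at hs
    obtain ⟨σ, hσ⟩ := hmin 0
    rw [mul_zero, sub_zero] at hσ
    apply hσ
    have h1 : σ s = s := by
      rcases sq_eq_one_iff.1 hs with h2 | h2
      · rw [h2, map_one]
      · rw [h2, map_neg, map_one]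
    have h5 : ‖c' σ‖ < 1 := md_zero.1 ((hk σ).1 h1)
    exact h5
  · -- `δ = m`
    rw [h] at hs
    have hsr : ∀ σ : GK i₀, σ s = s ↔ σ r = r := by
      intro σ
      have h1 : s ^ 2 = r ^ 2 := by rw [hs, cd.hr]
      rcases sq_eq_sq_iff_eq_or_eq_neg.1 h1 with h2 | h2
      · rw [h2]
      · rw [h2, map_neg, neg_inj]
    obtain ⟨σ, hσ⟩ := hmin (1 / 2)
    apply hσ
    have h2n : ‖(2 : ℚ_[2])‖ = 1 / 2 := norm_two'
    have h3 : ‖(vl χ σ - 1) * (1 / 2)‖ = 2 * ‖vl χ σ - 1‖ := by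
      rw [norm_mul, norm_div, norm_one, h2n]
      ring
    by_cases h4 : md c' σ = 0
    · have h5 : ‖c' σ‖ < 1 := md_zero.1 h4
      have h6 := (cd.iff hi σ).2 ((hsr σ).1 ((hk σ).2 h4))
      have e : c' σ - (vl χ σ - 1) * (1 / 2) = c' σ + -((vl χ σ - 1) * (1 / 2)) := by ring
      have h7 : ‖c' σ - (vl χ σ - 1) * (1 / 2)‖ < 1 := by
        rw [e]
        refine add_lt' h5 ?_
        rw [norm_neg, h3]
        linarith
      exact h7
    · have h5 : ¬ ‖c' σ‖ < 1 := fun h => h4 (md_zero.2 h)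
      have h6 := (md_eq (hint σ)).1 h5
      have h7 : σ r = -r := by
        rcases rt_or hi cd.hr σ with h7 | h7
        · exact absurd ((hk σ).1 ((hsr σ).2 h7)) h4
        · exact h7
      have h8 := cd.big hi h7
      have h9 : ¬ ‖(vl χ σ - 1) * (1 / 2)‖ < 1 := by
        rw [h3, h8]
        norm_num
      have h10 := (md_eq (by rw [h3, h8]; norm_num)).1 h9
      have e : c' σ - (vl χ σ - 1) * (1 / 2) = (c' σ - 1) + -((vl χ σ - 1) * (1 / 2) - 1) := by ring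
      rw [e]
      exact add_lt' h6 (by rwa [norm_neg])

end Pool.Agent.N848.W
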