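import Pool.Agent.N848.W.MainG

/-!
# The vanishing over multiquadratic fields
-/

set_option autoImplicit false
set_option linter.unusedSectionVars false

namespace Pool.Agent.N848.W

open Pool.Agent.R384
open Pool.Agent.Y715.Red Pool.Agent.Y715.Nr Pool.Agent.W237.RK
open Pool.Agent.Y715.Gi (QB KK GK i₀_mem gk_fix)
open Pool.Agent.Y715.Df (Cmp exists_cmp)
open Pool.Agent.Y715.Lc (norm_two_odd)

/-- the conditions on the twist -/
structure Gd (P : OO) : Prop where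
  four : (4 : OO) ∣ P - 1
  sqf : Squarefree P
  n7 : ¬ s7 ∣ P
  ev : Alg (-(s7 * P)) 2 (by decide)
  od : Alg (s7 * P) 3 (by decide)

variable {i₀ : QB} (hi : i₀ ^ 2 = i₀ - 2)

section

variable {κ κ' : GK i₀ →* ℤ_[2]ˣ} {D P : OO} {r I u v : QB}

/-- **The vanishing theorem** for the curve `E_D`, `D = -√-7 P`. -/
theorem vanG (hg : Gd P) (hD : D = -(s7 * P)) (kd : KD hi κ κ' D r I) (e1 : E8 κ v)
    (e2 : E8 κ' u) (hu : u ^ 2 = i₀ - 1) (hv : v ^ 2 = -i₀) (j : ℤ) {ϖ ϖ' : OO}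
    (hϖ : (Even j ∧ ϖ = om ∧ ϖ' = 1 - om) ∨ (Odd j ∧ ϖ = 1 - om ∧ ϖ' = om))
    {c : GK i₀ → ℚ_[2]} (hc : Coc (κ ^ j * κ' ^ (1 - j)) c)
    (hodd : ∀ (p : ℕ) [Fact p.Prime] (ι : QB →ₐ[ℚ] PadicAlgCl p), p ≠ 2 →
      CobOn (κ ^ j * κ' ^ (1 - j)) (II ι) c)
    (hstr : ∀ ι : QB →ₐ[ℚ] PadicAlgCl 2, ‖ι (em hi ϖ)‖ < 1 →
      CobOn (κ ^ j * κ' ^ (1 - j)) (DD ι) c) :
    ∃ y : ℚ_[2], ∀ σ, c σ = (vl (κ ^ j * κ' ^ (1 - j)) σ - 1) * y := by
  obtain ⟨m, s, hm, cd⟩ := chiD7 hi kd j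
  have hom : em hi om = i₀ := by
    rw [em_apply]
    simp [om]
  rcases hϖ with ⟨hj, h1, h2⟩ | ⟨hj, h1, h2⟩
  · have hm' : m = D := by
      rcases hm with ⟨-, h⟩ | ⟨h, -⟩
      · exact h
      · exact absurd hj (Int.not_even_iff_odd.2 h)
    have hm2 : m = -(s7 * P) := by rw [hm', hD]
    have he : E8 (κ ^ j * κ' ^ (1 - j)) u := e2.congr fun σ => (p8_chi j σ).1 hj
    refine mainG hi (t := u) hg.four hg.sqf hg.n7 (v := -1) (by rw [hm2]; ring) cd he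
      (w4 := 2) (by decide) (Or.inl ⟨rfl, h1, h2, rfl⟩) ?_ (by rw [hm2]; exact hg.ev) hc hodd hstr
    rw [h2, map_neg, map_sub, map_one, hom, hu]
    ring
  · have hm' : m = -D := by
      rcases hm with ⟨h, -⟩ | ⟨-, h⟩
      · exact absurd h (Int.not_even_iff_odd.2 hj)
      · exact h
    have hm2 : m = s7 * P := by rw [hm', hD, neg_neg]
    have he : E8 (κ ^ j * κ' ^ (1 - j)) v := e1.congr fun σ => (p8_chi j σ).2 hj
    refine mainG hi (t := v) hg.four hg.sqf hg.n7 (v := 1) (by rw [hm2]; ring) cd he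
      (w4 := 3) (by decide) (Or.inr ⟨rfl, h1, h2, rfl⟩) ?_ (by rw [hm2]; exact hg.od) hc hodd hstr
    rw [h2, map_neg, hom, hv]

end

section mq

variable {n : ℕ} {s : Fin n → QB}
variable {κ κ' : GK i₀ →* ℤ_[2]ˣ} {D : OO} {r I u v : QB}

/-- **The vanishing theorem over multiquadratic fields.** -/
theorem vanMq {E : Fin n → OO} (hE : ∀ i, s i ^ 2 = em hi (E i)) (kd : KD hi κ κ' D r I)
    (e1 : E8 κ v) (e2 : E8 κ' u) (hu : u ^ 2 = i₀ - 1) (hv : v ^ 2 = -i₀)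
    (hD : D ≠ 0) (hE0 : ∀ i, E i ≠ 0)
    (hgood : ∀ T : Finset (Fin n), ∃ P z : OO, Gd P ∧ z ≠ 0 ∧
      D * ∏ i ∈ T, E i = -(s7 * P) * z ^ 2) (j : ℤ) {ϖ ϖ' : OO}
    (hϖ : (Even j ∧ ϖ = om ∧ ϖ' = 1 - om) ∨ (Odd j ∧ ϖ = 1 - om ∧ ϖ' = om)) :
    VanOn hi ϖ (κ ^ j * κ' ^ (1 - j)) (fixs s Finset.univ) := by
  classical
  have hs0 : ∀ i, s i ≠ 0 := by
    intro i h
    have h1 := hE i
    rw [h, zero_pow two_ne_zero] at h1
    exact hE0 i (em_inj hi h1.symm)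
  have hs : ∀ (i) (σ : GK i₀), σ (s i) = s i ∨ σ (s i) = -s i := fun i σ => rt_or hi (hE i) σ
  refine van_all hi hs0 hs ϖ Finset.univ _ fun T _ => ?_
  obtain ⟨P, z, hg, hz, hprod⟩ := hgood T
  have kd1 := KD.twists hi hs0 hs hE kd hD hE0 T
  have hz0 : em hi z ≠ 0 := em_ne hi hz
  have kd2 := KD.resc hi kd1 (D' := -(s7 * P)) (u := (em hi z)⁻¹) (inv_ne_zero hz0)
    (fun σ => by rw [map_inv₀, gk_em]) (by
      rw [mul_pow, kd1.hr, hprod, map_mul, map_pow]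
      field_simp)
  have e1' := e1.twists hs0 hs T
  have e2' := e2.twists hs0 hs T
  set S := ∏ i ∈ T, sgc (es (hs0 i) (hs i)) with hS
  have e : κ ^ j * κ' ^ (1 - j) * S = (κ * S) ^ j * (κ' * S) ^ (1 - j) := by
    refine MonoidHom.ext fun σ => ?_
    have key : ∀ a b c : ℤ_[2]ˣ, a ^ j * b ^ (1 - j) * c = (a * c) ^ j * (b * c) ^ (1 - j) :=
      fun a b c => by
        rw [mul_zpow, mul_zpow, mul_mul_mul_comm, ← zpow_add, add_sub_cancel, zpow_one]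
    exact key _ _ _
  intro c hc hodd hstr
  rw [e] at hc hodd hstr ⊢
  obtain ⟨y, hy⟩ := vanG hi hg rfl kd2 e1' e2' hu hv j hϖ
    (c := c) ⟨by
      have := hc.cont
      rwa [Subgroup.coe_top, continuousOn_univ] at this, fun σ τ => hc.mul σ trivial τ trivial⟩
    (fun p _ ι hp => by
      obtain ⟨y, hy⟩ := hodd p ι hp
      exact ⟨y, fun σ hσ => hy σ hσ trivial⟩)
    (fun ι hι => by
      obtain ⟨y, hy⟩ := hstr ι hι
      exact ⟨y, fun σ hσ => hy σ hσ trivial⟩)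
  exact ⟨y, fun σ _ => hy σ⟩

end mq

end Pool.Agent.N848.W
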