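import Pool.Agent.N848.W.AlgB
import Pool.Agent.R426.QD.Mn
import Pool.Agent.N848.W.MqG

/-!
# The algebraic conditions in the two models of the ring of integers
-/

set_option autoImplicit false
set_option linter.unusedSectionVars false

namespace Pool.Agent.N848.W

open Pool.Agent.R426.QD
open Pool.Agent.R426 Pool.Agent.R426.QC
open Pool.Agent.Y698 Pool.Agent.Y698.SG
open H667R3 Pool.Agent.W192.HK Pool.Agent.TH936.CM Pool.Agent.TH936.PU

/-- the ring `ℤ[ω]` -/
abbrev OZ : Type := QuadraticAlgebra ℤ (-2) 1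

/-- the first model of the ring of integers as a subring of the complex numbers -/
noncomputable def th : OZ ≃+* RR where
  toFun x := (x.re : RR) + (x.im : RR) * aR
  invFun r := ⟨cX r, cY r⟩
  left_inv x := by
    have h := cXY_of (r := (x.re : RR) + (x.im : RR) * aR) (x := x.re) (y := x.im) (by
      push_cast
      rfl)
    ext
    · exact h.1
    · exact h.2
  right_inv r := by
    have h := cXY_of (r := ((cX r : ℤ) : RR) + ((cY r : ℤ) : RR) * aR) (x := cX r) (y := cY r) (by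
      push_cast
      rfl)
    exact RR_ext h.1 h.2
  map_mul' x y := by
    rw [QuadraticAlgebra.re_mul, QuadraticAlgebra.im_mul]
    push_cast
    linear_combination (-(x.im : RR) * (y.im : RR)) * aR_sq
  map_add' x y := by
    rw [QuadraticAlgebra.re_add, QuadraticAlgebra.im_add]
    push_cast
    ring

lemma th_apply (x : OZ) : th x = (x.re : RR) + (x.im : RR) * aR := rfl

lemma th_symm (r : RR) : th.symm r = ⟨cX r, cY r⟩ := rfl

/-- the conjugation -/
noncomputable def cjE : RR ≃+* RR where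
  toFun := cj
  invFun := cj
  left_inv := cj_cj
  right_inv := cj_cj
  map_mul' := map_mul cj
  map_add' := map_add cj

lemma cjE_apply (x : RR) : cjE x = cj x := rfl

lemma th_s7 : th R384.s7 = fR := by
  rw [th_apply]
  unfold fR R384.s7
  push_cast
  ring

lemma th_om : th R384.om = aR := by
  rw [th_apply]
  simp [R384.om]

lemma th_int (n : ℤ) : th ((n : ℤ) : OZ) = (n : RR) := map_intCast th n

lemma r4_th (x : OZ) : r4 (th x) = R384.em (w := (2 : ZMod 4)) (by decide) x := by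
  rw [th_apply, map_add, map_mul, map_intCast, map_intCast, r4_a, R384.em_apply]

lemma r4_cj_th (x : OZ) : r4 (cj (th x)) = R384.em (w := (3 : ZMod 4)) (by decide) x := by
  rw [th_apply, map_add, map_add, map_mul, map_mul, map_intCast, map_intCast, map_intCast,
    map_intCast, QC.cj_aR, map_sub, map_one, r4_a, R384.em_apply]
  congr 1

section

variable {φ : OZ ≃+* RR}

lemma e_dvd (φ : OZ ≃+* RR) {a b : OZ} : φ a ∣ φ b ↔ a ∣ b := map_dvd_iff φ

lemma e_prime (φ : OZ ≃+* RR) {p : OZ} : Prime (φ p) ↔ Prime p := MulEquiv.prime_iff φ.toMulEquiv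

lemma e_sqf (φ : OZ ≃+* RR) (x : OZ) : Squarefree (φ x) ↔ Squarefree x := by
  constructor
  · intro h y hy
    have h1 : φ y * φ y ∣ φ x := by
      rw [← map_mul, e_dvd]
      exact hy
    exact (isUnit_map_iff φ y).1 (h _ h1)
  · intro h y hy
    have h1 : φ.symm y * φ.symm y ∣ x := by
      rw [← map_mul, ← e_dvd φ, φ.apply_symm_apply]
      exact hy
    have h2 := h _ h1
    have h3 := (isUnit_map_iff φ (φ.symm y)).2 h2
    rwa [φ.apply_symm_apply] at h3

end

/-- the condition of `MainG` -/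
theorem alg_of (φ : OZ ≃+* RR) {ι : Type} [DecidableEq ι] {I : Finset ι} {π : ι → RR}
    (hf : Bf I π) (hg : gd (dc π) (dr π) I ≠ 0) {m : OZ} (hm : φ m = fR * ∏ i ∈ I, π i)
    (h7 : φ R384.s7 = fR ∨ φ R384.s7 = -fR) {w4 : ZMod 4} (hw4 : w4 ^ 2 = w4 - 2)
    (h4 : ∀ x, r4 (cj (φ x)) = R384.em hw4 x) : Alg m w4 hw4 := by
  intro δ hδ hsup hδ4 hloc
  have hd7 : ∀ z : OZ, z ∣ R384.s7 ↔ φ z ∣ fR := by
    intro z
    rw [← e_dvd φ]
    rcases h7 with h | h
    · rw [h]
    · rw [h, dvd_neg]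
  have c1 : ∀ ρ : RR, Prime ρ → ρ ∣ φ δ → ρ ∣ fR * ∏ i ∈ I, π i := by
    intro ρ hρ hρd
    obtain ⟨z, rfl⟩ := φ.surjective ρ
    rw [← hm, e_dvd]
    exact hsup z ((e_prime φ).1 hρ) ((e_dvd φ).1 hρd)
  have c2 : ∀ i ∈ I, (¬ π i ∣ φ δ ∧ ∃ y : RR, π i ∣ φ δ - y ^ 2) ∨
      ∃ d1 m1 : RR, φ δ = π i * d1 ∧ fR * ∏ i ∈ I, π i = π i * m1 ∧
        ∃ y : RR, π i ∣ d1 * m1 - y ^ 2 := by
    intro i hi
    obtain ⟨z, hz⟩ := φ.surjective (π i)
    have hzp : Prime z := (e_prime φ).1 (by rw [hz]; exact hf.pr i hi)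
    have hzm : z ∣ m := by
      rw [← e_dvd φ, hz, hm]
      exact (Finset.dvd_prod_of_mem π hi).mul_left _
    have hz7 : ¬ z ∣ R384.s7 := by
      rw [hd7, hz]
      exact fun h => hf.n7 i hi (Ideal.mem_span_singleton.2 h)
    rcases hloc z hzp hzm hz7 with ⟨h1, y, hy⟩ | ⟨δ1, m1, h1, h2, y, hy⟩
    · left
      rw [← hz]
      refine ⟨fun h => h1 ((e_dvd φ).1 h), φ y, ?_⟩
      rw [← map_pow, ← map_sub, e_dvd]
      exact hy
    · right
      refine ⟨φ δ1, φ m1, ?_, ?_, φ y, ?_⟩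
      · rw [h1, map_mul, hz]
      · rw [← hm, h2, map_mul, hz]
      · rw [← hz, ← map_mul, ← map_pow, ← map_sub, e_dvd]
        exact hy
  rcases algB hf hg ((e_sqf φ δ).2 hδ) c1 (by rw [h4]; exact hδ4) c2 with h | h
  · left
    exact φ.injective (by rw [h, map_one])
  · right
    exact φ.injective (by rw [h, hm])

/-- **the conditions on the twist** -/
theorem gd_of {ι : Type} [DecidableEq ι] {I : Finset ι} {π : ι → RR} (hE : Ev I π)
    (hg : gd (mc π) (mr π) I ≠ 0) {P : OZ} (hP : th P = ∏ i ∈ I, π i) : Gd P := by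
  have h8 : (∏ i ∈ I, cj (π i)) = cj (∏ i ∈ I, π i) := (map_prod cj _ _).symm
  refine ⟨?_, ?_, ?_, ?_, ?_⟩
  · obtain ⟨J, hJ⟩ := hE.m4
    rw [← e_dvd th, map_sub, map_one, map_ofNat, hP, hJ, add_sub_cancel_left]
    exact Dvd.intro _ rfl
  · rw [← e_sqf th, hP]
    exact hE.sqf
  · rw [← e_dvd th, th_s7, hP]
    intro h
    obtain ⟨i, hi, h2⟩ := (QC.prime_fR.dvd_finsetProd_iff _).1 h
    have h3 := (hE.fa.pn i hi).pr
    exact (hE.c7 i hi).2 (Ideal.mem_span_singleton.2
      ((QC.prime_fR.dvd_prime_iff_associated h3).1 h2).symm.dvd)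
  · refine alg_of (th.trans cjE) hE.bcj (by rw [gd_cj hE]; exact hg) ?_ (Or.inr ?_) _ ?_
    · show cj (th (-(R384.s7 * P))) = _
      rw [map_neg, map_mul, th_s7, hP, map_neg, map_mul, cj_fR, h8]
      ring
    · show cj (th R384.s7) = -fR
      rw [th_s7, cj_fR]
    · intro x
      show r4 (cj (cj (th x))) = _
      rw [cj_cj]
      exact r4_th x
  · refine alg_of th hE.bnb (by rw [gd_nb hE]; exact hg) ?_ (Or.inl th_s7) _ r4_cj_th
    rw [map_mul, th_s7, hP, prod_nb' hE]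

end Pool.Agent.N848.W
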