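import Pool.Agent.N848.W.E8
import Pool.Agent.R384.X.Mq7
import Pool.Agent.R384.Cyc

/-!
# The characters modulo eight
-/

set_option autoImplicit false
set_option linter.unusedSectionVars false

namespace Pool.Agent.N848.W

open WeierstrassCurve Pool.Agent.Y676.IS Pool.Agent.R384
open Pool.Agent.Y715.Red Pool.Agent.Y715.Nr Pool.Agent.W237.RK
open Pool.Agent.Y715.Gi (QB KK GK i₀_mem gk_fix)
open Pool.Agent.Y715.Df (Cmp exists_cmp)

open scoped Classical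

/-- reduction modulo eight -/
noncomputable def p8 : ℤ_[2]ˣ →* (ZMod (2 ^ 3))ˣ := Units.map (PadicInt.toZModPow 3).toMonoidHom

lemma dvd8 (z : ℤ_[2]) : (8 : ℤ_[2]) ∣ z ↔ PadicInt.toZModPow 3 z = 0 := by
  have h1 : PadicInt.toZModPow 3 z = 0 ↔ z ∈ RingHom.ker (PadicInt.toZModPow (p := 2) 3) := Iff.rfl
  rw [h1, PadicInt.ker_toZModPow, Ideal.mem_span_singleton]
  have e : ((2 : ℕ) : ℤ_[2]) ^ 3 = 8 := by norm_num
  rw [e]

lemma p8_eq {u v : ℤ_[2]ˣ} : p8 u = p8 v ↔ (8 : ℤ_[2]) ∣ (u : ℤ_[2]) - v := by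
  rw [dvd8, map_sub, sub_eq_zero, Units.ext_iff]
  rfl

lemma p8_one {u : ℤ_[2]ˣ} : p8 u = 1 ↔ (8 : ℤ_[2]) ∣ (u : ℤ_[2]) - 1 := by
  rw [← map_one p8, p8_eq, Units.val_one]

lemma p8_neg {u : ℤ_[2]ˣ} : p8 u = -1 ↔ (8 : ℤ_[2]) ∣ (u : ℤ_[2]) + 1 := by
  have h : p8 (-1) = -1 := by
    unfold p8
    ext
    simp
  rw [← h, p8_eq, Units.val_neg, Units.val_one, sub_neg_eq_add]

/-- the reduction modulo four in terms of that modulo eight -/
lemma ph_of_p8 {u v : ℤ_[2]ˣ} (h : p8 u = p8 v) : ph u = ph v := by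
  rw [p8_eq] at h
  have h4 : (4 : ℤ_[2]) ∣ (u : ℤ_[2]) - v := dvd_trans ⟨2, by norm_num⟩ h
  rw [dvd_iff_ker, map_sub, sub_eq_zero] at h4
  apply Units.ext
  exact h4

lemma sq_eight (u : (ZMod (2 ^ 3))ˣ) : u ^ 2 = 1 := by
  revert u
  decide

/-- the units modulo eight are determined by those modulo four and modulo the sign -/
lemma p8_of {u v : ℤ_[2]ˣ} (h4 : ph u = ph v)
    (h8 : (p8 u = 1 ∨ p8 u = -1) ↔ (p8 v = 1 ∨ p8 v = -1)) : p8 u = p8 v := by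
  have key : ∀ a b : ZMod 8, IsUnit a → IsUnit b → (ZMod.castHom (by norm_num : 4 ∣ 8) (ZMod 4) a =
      ZMod.castHom (by norm_num : 4 ∣ 8) (ZMod 4) b) → ((a = 1 ∨ a = -1) ↔ (b = 1 ∨ b = -1)) →
      a = b := by decide
  have hc : ∀ u : ℤ_[2]ˣ, ZMod.castHom (by norm_num : 4 ∣ 8) (ZMod 4) ((p8 u : ZMod 8)) =
      ((ph u : ZMod 4)) := by
    intro u
    have h1 := PadicInt.zmod_cast_comp_toZModPow (p := 2) 2 3 (by norm_num)
    exact congrArg (fun f : ℤ_[2] →+* ZMod (2 ^ 2) => f (u : ℤ_[2])) h1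
  have hv : ∀ u : ℤ_[2]ˣ, ((p8 u = 1 ∨ p8 u = -1) ↔ ((p8 u : ZMod 8) = 1 ∨ (p8 u : ZMod 8) = -1)) := by
    intro u
    rw [Units.ext_iff, Units.ext_iff, Units.val_neg]
    rfl
  apply Units.ext
  refine key _ _ (p8 u).isUnit (p8 v).isUnit ?_ ?_
  · rw [hc, hc, h4]
  · rw [← hv, ← hv]
    exact h8

variable {i₀ : QB} (hi : i₀ ^ 2 = i₀ - 2)

/-- `v` is fixed by the elements on which the character is `± 1` modulo eight -/
def E8 (χ : GK i₀ →* ℤ_[2]ˣ) (v : QB) : Prop :=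
  ∀ σ : GK i₀, σ v = v ↔ (p8 (χ σ) = 1 ∨ p8 (χ σ) = -1)

section

variable {χ χ' : GK i₀ →* ℤ_[2]ˣ} {v : QB}

lemma E8.sgn (h : E8 χ v) (hχ : ∀ σ, χ' σ = χ σ ∨ χ' σ = -χ σ) : E8 χ' v := by
  have hneg : ∀ u : ℤ_[2]ˣ, p8 (-u) = -p8 u := by
    intro u
    unfold p8
    ext
    simp
  intro σ
  rw [h σ]
  rcases hχ σ with h1 | h1
  · rw [h1]
  · rw [h1, hneg, neg_eq_iff_eq_neg, neg_inj, or_comm]

lemma E8.twist (h : E8 χ v) {s : QB} (hs0 : s ≠ 0) (hs : ∀ σ : GK i₀, σ s = s ∨ σ s = -s) :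
    E8 (χ * sgc (es hs0 hs)) v := by
  apply h.sgn
  intro σ
  show χ σ * sgc (es hs0 hs) σ = χ σ ∨ χ σ * sgc (es hs0 hs) σ = -χ σ
  rcases Int.units_eq_one_or (es hs0 hs σ) with h1 | h1
  · left
    rw [sgc_one h1, mul_one]
  · right
    rw [sgc_neg h1, mul_neg, mul_one]

lemma E8.twists {n : ℕ} {s : Fin n → QB} (hs0 : ∀ i, s i ≠ 0)
    (hs : ∀ (i) (σ : GK i₀), σ (s i) = s i ∨ σ (s i) = -s i) (h : E8 χ v) (T : Finset (Fin n)) :
    E8 (χ * ∏ i ∈ T, sgc (es (hs0 i) (hs i))) v := by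
  induction T using Finset.induction_on with
  | empty => rwa [Finset.prod_empty, mul_one]
  | insert i T hiT ih =>
    rw [Finset.prod_insert hiT]
    have e1 : χ * (sgc (es (hs0 i) (hs i)) * ∏ i ∈ T, sgc (es (hs0 i) (hs i))) =
        χ * (∏ i ∈ T, sgc (es (hs0 i) (hs i))) * sgc (es (hs0 i) (hs i)) := by
      refine MonoidHom.ext fun σ => ?_
      have key : ∀ a b c : ℤ_[2]ˣ, a * (b * c) = a * c * b := fun a b c => by
        rw [mul_assoc, mul_comm b]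
      exact key _ _ _
    rw [e1]
    exact ih.twist (hs0 i) (hs i)

lemma E8.congr (h : E8 χ v) (hχ : ∀ σ, p8 (χ' σ) = p8 (χ σ)) : E8 χ' v := by
  intro σ
  rw [h σ, hχ]

end

/-- the weights -/
theorem p8_chi {κ κ' : GK i₀ →* ℤ_[2]ˣ} (j : ℤ) (σ : GK i₀) :
    (Even j → p8 ((κ ^ j * κ' ^ (1 - j) : GK i₀ →* ℤ_[2]ˣ) σ) = p8 (κ' σ)) ∧
    (Odd j → p8 ((κ ^ j * κ' ^ (1 - j) : GK i₀ →* ℤ_[2]ˣ) σ) = p8 (κ σ)) := by
  have hap : (κ ^ j * κ' ^ (1 - j) : GK i₀ →* ℤ_[2]ˣ) σ = (κ σ) ^ j * (κ' σ) ^ (1 - j) := rfl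
  constructor
  · rintro ⟨k, hk⟩
    have hk' : j = 2 * k := by omega
    rw [hap, map_mul, map_zpow, map_zpow, hk', zpow_even (sq_eight _), one_mul, zpow_sub,
      zpow_even (sq_eight _), zpow_one]
    simp
  · rintro ⟨k, hk⟩
    have e : 1 - j = 2 * (-k) := by omega
    rw [hap, map_mul, map_zpow, map_zpow, e, zpow_even (sq_eight _), mul_one, hk, zpow_add,
      zpow_even (sq_eight _), zpow_one, one_mul]

/-! ### The characters of the curve -/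

/-- the tower of the other model -/
lemma tow_S' {w m : QB} (h : WD w m) {y : ℕ → (Cu (ca w m) (cb w m)).Point}
    (hy : Tow (eG h) (tB h) y) : Tow (eF h.bar) (tA h.bar) (fun n => shF h.sh.symm (y n)) := by
  have hit : ∀ (n : ℕ) (P : (Cu (ca (1 - w) (-m)) (cb (1 - w) (-m))).Point),
      ((eG h)^[n]) (shF h.sh P) = shF h.sh (((eF h.bar)^[n]) P) := by
    intro n
    induction n with
    | zero => intro P; rfl
    | succ n ih =>
      intro P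
      rw [Function.iterate_succ_apply, eG_S, ih, Function.iterate_succ_apply]
  refine ⟨?_, ?_, fun n => ?_, fun n => ?_⟩
  · show shF h.sh.symm (y 0) = 0
    rw [hy.zero]
    rfl
  · show shF h.sh.symm (y 1) = tA h.bar
    rw [hy.one]
    exact shF_inv h.sh _
  · show shF h.sh.symm (y (n + 1)) + shF h.sh.symm (y (n + 1)) = shF h.sh.symm (y n)
    rw [← shF_add, hy.dbl]
  · show ((eF h.bar)^[n]) (shF h.sh.symm (y n)) = 0
    have h1 := hit n (shF h.sh.symm (y n))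
    rw [shF_inv', show ((eG h)^[n]) (y n) = 0 from hy.ker n] at h1
    have h2 := congrArg (shF h.sh.symm) h1
    rw [shF_inv] at h2
    exact h2.symm

/-- **The characters of the curve, modulo eight.** -/
theorem exists_ke {D : OO} (hD : D ≠ 0) (h : WD i₀ (em hi D)) {r I u v : QB}
    (hr : r ^ 2 = em hi D) (hI : I ^ 2 = -1) (hu : u ^ 2 = i₀ - 1) (hv : v ^ 2 = -i₀)
    (fx : ∀ σ : GK i₀, Fx i₀ (em hi D) (rh σ)) :
    ∃ (κ κ' : GK i₀ →* ℤ_[2]ˣ) (x y : ℕ → (Cu (ca i₀ (em hi D)) (cb i₀ (em hi D))).Point),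
      KD hi κ κ' D r I ∧ E8 κ v ∧ E8 κ' u ∧ Tow (eF h) (tA h) x ∧ Tow (eG h) (tB h) y ∧
      (∀ σ, ActsBy x (act h fx σ) (κ' σ)) ∧ ∀ σ, ActsBy y (act h fx σ) (κ σ) := by
  obtain ⟨κ, κ', x, y, kd, hx, hy, ax, ay⟩ := exists_kd hi hD h hr hI fx
  refine ⟨κ, κ', x, y, kd, ?_, ?_, hx, hy, ax, ay⟩
  · have fxb : ∀ σ : GK i₀, Fx (1 - i₀) (-em hi D) (rh σ) := fun σ => (fx σ).bar
    have hz := tow_S' h hy
    intro σ
    have az : ActsBy (fun n => shF h.sh.symm (y n)) (act h.bar fxb σ) (κ σ) := by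
      intro n k hk
      show act h.bar fxb σ (shF h.sh.symm (y n)) = k • shF h.sh.symm (y n)
      have h1 := ay σ n k hk
      have h2 := gal_shF h (fx σ) (shF h.sh.symm (y n))
      rw [shF_inv'] at h2
      have h3 : shF h.sh (act h.bar fxb σ (shF h.sh.symm (y n))) = k • y n := h2.symm.trans h1
      let S : (Cu (ca i₀ (em hi D)) (cb i₀ (em hi D))).Point →+
          (Cu (ca (1 - i₀) (-em hi D)) (cb (1 - i₀) (-em hi D))).Point :=
        { toFun := shF h.sh.symm, map_zero' := rfl, map_add' := shF_add h.sh.symm }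
      have h4 := congrArg S h3
      rw [map_zsmul] at h4
      exact (shF_inv h.sh _).symm.trans h4
    have hv' : v ^ 2 = (1 - i₀) - 1 := by rw [hv]; ring
    rw [kap_eight h.bar fxb hz hv' az, p8_one, p8_neg]
  · intro σ
    rw [kap_eight h fx hx hu (ax σ), p8_one, p8_neg]

end Pool.Agent.N848.W
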