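import Pool.Agent.R384.End

/-!
# The points of order eight of the tower of `1 - w`: the characters modulo eight
-/

set_option autoImplicit false
set_option linter.unusedSectionVars false

namespace Pool.Agent.N848.W

open WeierstrassCurve Pool.Agent.Y676.IS Pool.Agent.R384
open Pool.Agent.Y715.Gi (QB KK GK i₀_mem gk_fix)

open scoped Classical

section geo

variable {F : Type} [Field F] [CharZero F] [IsAlgClosed F] {w m : F} {σ : F →+* F}

lemma x_four (h : WD w m) {x y : F} (hxy : (Cu (ca w m) (cb w m)).Nonsingular x y) (hx : x ≠ 0)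
    (h1 : x ^ 2 = w ^ 4 * m ^ 2) (h2 : y ^ 2 = m * (1 - w) ^ 2 * x ^ 2) : x = w ^ 2 * m := by
  have h3 := ns_eq hxy
  unfold ca cb at h3
  have hm := h.hm
  have e1 : x * (x ^ 2 + (3 * (1 - w) - (1 - w) ^ 2) * m * x + w ^ 4 * m ^ 2) = 0 := by
    linear_combination h2 - h3
  have e2 := (mul_eq_zero.1 e1).resolve_left hx
  rw [h1] at e2
  have hw0 := h.w0
  have hw1 := h.w1
  -- `2 w⁴ m² + (3 (1 - w) - (1 - w)²) m x = 0`, and `(3 (1 - w) - (1 - w)²) = (1 - w) (2 + w) = - (1 - w) w³`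
  have e3 : (3 * (1 - w) - (1 - w) ^ 2) = -((1 - w) * w ^ 3) := by
    linear_combination (1 - w ^ 2) * h.hw
  rw [e3] at e2
  have e4 : (1 - w) * w ^ 3 * m * (x - w ^ 2 * m) = 0 := by
    have h20 : w * (1 - w) = 2 := h.mul
    linear_combination -e2 + (-(w ^ 4 * m ^ 2)) * h20
  have e5 : (1 - w) * w ^ 3 * m ≠ 0 := mul_ne_zero (mul_ne_zero hw1 (pow_ne_zero _ hw0)) hm
  exact sub_eq_zero.1 ((mul_eq_zero.1 e4).resolve_left e5)

/-- the `x`-coordinate of the points of order eight -/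
lemma x_eight (h : WD w m) {Q : (Cu (ca w m) (cb w m)).Point} (hQ : eF h (eF h Q) = tA h) {u : F}
    (hu : u ^ 2 = w - 1) : ∃ (x y : F) (hxy : (Cu (ca w m) (cb w m)).Nonsingular x y),
      Q = .some x y hxy ∧ (x = w * m * (1 + (1 - w) * u) ∨ x = w * m * (1 - (1 - w) * u)) := by
  obtain ⟨x2, y2, hxy2, he2, hx2, hy2, h1, h2⟩ := four h hQ
  have hx4 := x_four h hxy2 hx2 h1 h2
  rcases Q with _ | ⟨x, y, hxy⟩
  · exact absurd he2 (by rintro ⟨⟩)
  have hx : x ≠ 0 := by
    intro hx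
    rw [isT_of_x0 h.dat.hb h.dat.hd hxy hx] at he2
    have h1 : eF h (tA h) = 0 := (td h).fT
    rw [show (TT h.dat.hb h.dat.hd) = tA h from rfl, h1] at he2
    exact absurd he2 (by rintro ⟨⟩)
  obtain ⟨hn, he⟩ := eF_some h hxy hx
  rw [he] at he2
  obtain ⟨e1, -⟩ := (Affine.Point.some.injEq _ _ _ _ _ _).mp he2
  have hw1 := h.w1
  refine ⟨x, y, hxy, rfl, ?_⟩
  rw [hx4] at e1
  have hy2 : y ^ 2 = (w ^ 2 * m + m) * ((1 - w) ^ 2 * x ^ 2) := by
    field_simp at e1
    linear_combination e1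
  have h3 := ns_eq hxy
  unfold ca cb at h3
  have e2 : x * (x ^ 2 - 2 * (w * m) * x + w ^ 4 * m ^ 2) = 0 := by
    linear_combination hy2 - h3 - ((-w ^ 2 + w + 1) * m * x ^ 2) * h.hw
  have e3 := (mul_eq_zero.1 e2).resolve_left hx
  have e4 : (x - w * m) ^ 2 = (w * m * ((1 - w) * u)) ^ 2 := by
    have e5 : (w * m * ((1 - w) * u)) ^ 2 = (w * m) ^ 2 * (1 - w) ^ 2 * (w - 1) := by
      rw [← hu]; ring
    rw [e5]
    linear_combination e3 + (w ^ 2 * m ^ 2 * (1 - w)) * h.hw
  rcases sq_eq_sq_iff_eq_or_eq_neg.1 e4 with h5 | h5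
  · left; linear_combination h5
  · right; linear_combination h5

/-- the action on the points of order eight -/
theorem gal_eight (h : WD w m) (hs : Fx w m σ) {u : F} (hu : u ^ 2 = w - 1)
    {Q : (Cu (ca w m) (cb w m)).Point} (hQ : eF h (eF h Q) = tA h) :
    σ u = u ↔ (gal h σ hs Q = Q ∨ gal h σ hs Q = -Q) := by
  obtain ⟨x, y, hxy, rfl, hx⟩ := x_eight h hQ hu
  have hw0 := h.w0
  have hw1 := h.w1
  have hm := h.hm
  have hxu : σ x = x ↔ σ u = u := by
    constructor
    · intro h1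
      have hne : w * m * (1 - w) ≠ 0 := mul_ne_zero (mul_ne_zero hw0 hm) hw1
      rcases hx with rfl | rfl
      · simp only [map_mul, map_add, map_sub, map_one, hs.w, hs.m] at h1
        apply mul_left_cancel₀ hne
        linear_combination h1
      · simp only [map_mul, map_sub, map_one, hs.w, hs.m] at h1
        apply mul_left_cancel₀ hne
        linear_combination -h1
    · intro h1
      rcases hx with rfl | rfl
      · simp only [map_mul, map_add, map_sub, map_one, hs.w, hs.m, h1]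
      · simp only [map_mul, map_sub, map_one, hs.w, hs.m, h1]
  rw [← hxu, gal_some, neg_some hxy (ns_neg h.dat.hb h.dat.hd hxy)]
  constructor
  · intro h1
    have h2 : (σ y) ^ 2 = y ^ 2 := by
      have h3 := ns_eq hxy
      have h4 := congrArg σ h3
      rw [map_pow, map_add, map_add, map_mul, map_mul, map_pow, map_pow, hs.ca, hs.cb, h1] at h4
      rw [h4, h3]
    rcases sq_eq_sq_iff_eq_or_eq_neg.1 h2 with h3 | h3
    · left
      exact some_congr _ _ h1 h3
    · right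
      exact some_congr _ _ h1 h3
  · rintro (h1 | h1)
    · exact ((Affine.Point.some.injEq _ _ _ _ _ _).mp h1).1
    · exact ((Affine.Point.some.injEq _ _ _ _ _ _).mp h1).1

end geo

section

variable {i₀ w m : QB} (h : WD w m) (fx : ∀ σ : GK i₀, Fx w m (rh σ))
  {x : ℕ → (Cu (ca w m) (cb w m)).Point}

lemma tow_three (hx : Tow (eF h) (tA h) x) :
    eF h (eF h (x 3)) = tA h := by
  have h1 : eF h (eF h (eF h (x 3))) = 0 := hx.ker 3
  rcases ((td h).kf _).1 h1 with h2 | h2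
  · exfalso
    have h3 := Tow.two h hx
    rw [← hx.dbl 2, map_add, ← (td h).gf, h2, map_zero] at h3
    exact (td h).hT h3.symm
  · exact h2

/-- **The character modulo eight.** -/
theorem kap_eight (hx : Tow (eF h) (tA h) x) {u : QB} (hu : u ^ 2 = w - 1) {σ : GK i₀} {z : ℤ_[2]}
    (hz : ActsBy x (act h fx σ) z) :
    σ u = u ↔ ((8 : ℤ_[2]) ∣ z - 1 ∨ (8 : ℤ_[2]) ∣ z + 1) := by
  have e8 : (2 : ℤ_[2]) ^ 3 = 8 := by norm_num
  have h1 := gal_eight h (fx σ) hu (tow_three h hx)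
  have h2 : (σ u = u) ↔ (rh σ) u = u := Iff.rfl
  rw [h2, h1]
  obtain ⟨k, hk⟩ := exists_int z 3
  have h3 : gal h (rh σ) (fx σ) (x 3) = k • x 3 := hz 3 k hk
  constructor
  · rintro (h4 | h4)
    · left
      have h5 : (k - 1) • x 3 = 0 := by rw [sub_smul, ← h3, h4, one_smul, sub_self]
      have h6 := dvd_cast.2 (Tow.dvd (td h) hx h5)
      have h7 := dvd_add hk h6
      rw [e8] at h7
      have e : z - (k : ℤ_[2]) + ((k - 1 : ℤ) : ℤ_[2]) = z - 1 := by push_cast; ring
      rwa [e] at h7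
    · right
      have h5 : (k + 1) • x 3 = 0 := by rw [add_one_zsmul, ← h3, h4, neg_add_cancel]
      have h6 := dvd_cast.2 (Tow.dvd (td h) hx h5)
      have h7 := dvd_add hk h6
      rw [e8] at h7
      have e : z - (k : ℤ_[2]) + ((k + 1 : ℤ) : ℤ_[2]) = z + 1 := by push_cast; ring
      rwa [e] at h7
  · rintro (h4 | h4)
    · left
      have h5 : gal h (rh σ) (fx σ) (x 3) = (1 : ℤ) • x 3 := hz 3 1 (by rw [e8]; simpa using h4)
      rwa [one_smul] at h5
    · right
      have h5 : gal h (rh σ) (fx σ) (x 3) = (-1 : ℤ) • x 3 := hz 3 (-1) (by rw [e8]; simpa using h4)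
      rwa [neg_smul, one_smul] at h5

end

end Pool.Agent.N848.W
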