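import Mathlib

/-!
# Hilbert 90 for locally constant cocycles
-/

set_option autoImplicit false

namespace Pool.Agent.N848.W

open scoped Topology

theorem h90 {F K : Type} [Field F] [Field K] [Algebra F K] [IsGalois F K]
    (f : (K ≃ₐ[F] K) → K) (hne : ∀ σ, f σ ≠ 0) (hmul : ∀ σ τ, f (σ * τ) = f σ * σ (f τ))
    (hopen : {σ | f σ = 1} ∈ 𝓝 (1 : K ≃ₐ[F] K)) :
    ∃ α : K, α ≠ 0 ∧ ∀ σ : K ≃ₐ[F] K, σ α = f σ * α := by
  rw [krullTopology_mem_nhds_one_iff_of_normal] at hopen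
  obtain ⟨E, hE1, hE2, hE3⟩ := hopen
  let r : (K ≃ₐ[F] K) → (E ≃ₐ[F] E) := fun σ => σ.restrictNormal E
  let l : (E ≃ₐ[F] E) → (K ≃ₐ[F] K) := fun τ => τ.liftNormal K
  have hr : ∀ (σ : K ≃ₐ[F] K) (x : E), ((r σ x : E) : K) = σ x := fun σ x =>
    AlgEquiv.restrictNormal_commutes σ E x
  have hl : ∀ (τ : E ≃ₐ[F] E) (x : E), l τ (x : K) = ((τ x : E) : K) := fun τ x =>
    AlgEquiv.liftNormal_commutes τ K x
  have hker : ∀ σ σ' : K ≃ₐ[F] K, (∀ x : E, σ (x : K) = σ' (x : K)) → f σ = f σ' := by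
    intro σ σ' hx
    have h2 : σ⁻¹ * σ' ∈ E.fixingSubgroup := by
      rw [IntermediateField.mem_fixingSubgroup_iff]
      intro x hxE
      rw [AlgEquiv.mul_apply, ← hx ⟨x, hxE⟩, ← AlgEquiv.mul_apply, inv_mul_cancel]
      rfl
    have h3 : f (σ⁻¹ * σ') = 1 := hE3 h2
    have h4 := hmul σ (σ⁻¹ * σ')
    rw [← mul_assoc, mul_inv_cancel, one_mul, h3, map_one, mul_one] at h4
    exact h4.symm
  have hmem : ∀ σ, f σ ∈ E := by
    intro σ
    rw [← InfiniteGalois.fixedField_fixingSubgroup E, IntermediateField.mem_fixedField_iff]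
    intro τ hτ
    have h1 : f τ = 1 := hE3 hτ
    have h2 := hmul τ σ
    rw [h1, one_mul] at h2
    rw [← h2]
    apply hker
    intro x
    rw [AlgEquiv.mul_apply, ← hr σ x]
    exact (IntermediateField.mem_fixingSubgroup_iff _ _).1 hτ _ (r σ x).2
  let g : (E ≃ₐ[F] E) → Eˣ := fun τ =>
    Units.mk0 ⟨f (l τ), hmem _⟩ (fun h0 => hne (l τ) (congrArg Subtype.val h0))
  have hg : groupCohomology.IsMulCocycle₁ g := by
    intro τ τ'
    apply Units.ext
    apply Subtype.ext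
    show f (l (τ * τ')) = ((τ (⟨f (l τ'), hmem _⟩ : E) : E) : K) * f (l τ)
    rw [← hl τ, mul_comm, ← hmul]
    apply hker
    intro x
    rw [hl, AlgEquiv.mul_apply, AlgEquiv.mul_apply, hl, hl]
  obtain ⟨x, hx⟩ := groupCohomology.isMulCoboundary₁_of_isMulCocycle₁_of_aut_to_units g hg
  have hx2 : ∀ τ : E ≃ₐ[F] E, τ (x : E) = (⟨f (l τ), hmem _⟩ : E) * (x : E) := by
    intro τ
    have h3 := hx τ
    rw [div_eq_iff_eq_mul] at h3
    exact congrArg Units.val h3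
  refine ⟨((x : E) : K), ?_, ?_⟩
  · intro h0
    have : (x : E) = 0 := Subtype.ext h0
    exact x.ne_zero this
  · intro σ
    have h4 := hx2 (r σ)
    have h5 : f (l (r σ)) = f σ := by
      apply hker
      intro y
      rw [hl, hr]
    have h6 := congrArg (fun y : E => (y : K)) h4
    have h7 : ((r σ (x : E) : E) : K) = (((⟨f (l (r σ)), hmem _⟩ : E) * (x : E) : E) : K) := h6
    rw [hr] at h7
    rw [h7]
    show f (l (r σ)) * ((x : E) : K) = _
    rw [h5]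

end Pool.Agent.N848.W
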