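import Pool.Agent.N848.W.Dat
import Pool.Agent.N848.W.H90

/-!
# The place without condition: the valuation of the reduction of an integral class is even
-/

set_option autoImplicit false
set_option linter.unusedSectionVars false

namespace Pool.Agent.N848.W

open Pool.Agent.R384
open Pool.Agent.Y715.Red Pool.Agent.Y715.Nr Pool.Agent.W237.RK
open Pool.Agent.Y715.Gi (QB KK GK i₀_mem gk_fix)
open Pool.Agent.Y715.Df (Cmp exists_cmp)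
open scoped Topology

open scoped Classical

section roots

variable {L : Type} [Field L] {ζ : L}

/-- powers with exponents modulo eight -/
def zt (ζ : L) (a : ZMod (2 ^ 3)) : L := ζ ^ (ZMod.val a)

variable (hζ : IsPrimitiveRoot ζ 8)

include hζ in
lemma zt_add (a b : ZMod (2 ^ 3)) : zt ζ (a + b) = zt ζ a * zt ζ b := by
  unfold zt
  rw [ZMod.val_add, ← pow_add]
  exact (pow_eq_pow_mod _ hζ.pow_eq_one).symm

include hζ in
lemma zt_mul (a b : ZMod (2 ^ 3)) : zt ζ (a * b) = zt ζ b ^ (ZMod.val a) := by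
  unfold zt
  rw [ZMod.val_mul, ← pow_mul, mul_comm (ZMod.val b)]
  exact (pow_eq_pow_mod _ hζ.pow_eq_one).symm

lemma zt_zero : zt ζ 0 = 1 := by
  unfold zt
  rw [ZMod.val_zero, pow_zero]

include hζ in
lemma zt_ne (a : ZMod (2 ^ 3)) : zt ζ a ≠ 0 := pow_ne_zero _ (hζ.ne_zero (by norm_num))

include hζ in
lemma zt_four : zt ζ 4 = -1 := by
  have h : zt ζ 4 = ζ ^ 4 := rfl
  rw [h]
  have h1 : (ζ ^ 4) ^ 2 = 1 := by rw [← pow_mul]; exact hζ.pow_eq_one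
  rcases sq_eq_one_iff.1 h1 with h2 | h2
  · exfalso
    have := hζ.dvd_of_pow_eq_one 4 h2
    norm_num at this
  · exact h2

end roots

/-- the conjugates of elements of the maximal unramified extension -/
lemma kur_map (t : Au 2) {x : PadicAlgCl 2} (hx : x ∈ kur 2) : t x ∈ kur 2 := by
  have h1 : (kur 2).map t.toAlgHom ≤ kur 2 := by
    unfold kur
    rw [IntermediateField.adjoin_map, IntermediateField.adjoin_le_iff]
    rintro _ ⟨y, ⟨M, hM, hy⟩, rfl⟩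
    apply IntermediateField.subset_adjoin
    refine ⟨M, hM, ?_⟩
    show (t y) ^ M = 1
    rw [← map_pow, hy, map_one]
  exact h1 ⟨x, hx, rfl⟩

lemma conj_kur {t t0 : Au 2} (ht : ∀ x ∈ kur 2, t x = x) : ∀ x ∈ kur 2, (t0⁻¹ * t * t0) x = x := by
  intro x hx
  rw [AlgEquiv.mul_apply, AlgEquiv.mul_apply, ht _ (kur_map t0 hx), ← AlgEquiv.mul_apply,
    inv_mul_cancel, AlgEquiv.one_apply]

section res

variable {i₀ : QB} (hi : i₀ ^ 2 = i₀ - 2) (ι : QB →ₐ[ℚ] PadicAlgCl 2)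

/-- the restriction to the algebraic numbers -/
noncomputable def rs (t : Au 2) : GK i₀ := Classical.choose (exists_cmp ι t (two_fix (iw hi ι) t))

lemma rs_cmp (t : Au 2) : Cmp ι t (rs hi ι t) :=
  Classical.choose_spec (exists_cmp ι t (two_fix (iw hi ι) t))

lemma cmp_uniq {t : Au 2} {σ σ' : GK i₀} (h : Cmp ι t σ) (h' : Cmp ι t σ') : σ = σ' := by
  ext x
  apply ι.injective
  show ι (σ x) = ι (σ' x)
  rw [← h, ← h']

lemma rs_mul (t u : Au 2) : rs hi ι (t * u) = rs hi ι t * rs hi ι u :=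
  cmp_uniq ι (rs_cmp hi ι _) ((rs_cmp hi ι t).mul (rs_cmp hi ι u))

lemma rs_one : rs hi ι 1 = 1 := cmp_uniq ι (rs_cmp hi ι _) (fun _ => rfl)

lemma rs_inv (t : Au 2) : rs hi ι t⁻¹ = (rs hi ι t)⁻¹ := by
  rw [eq_inv_iff_mul_eq_one, ← rs_mul, inv_mul_cancel, rs_one]

/-- neighbourhoods of the identity -/
lemma rs_nhds {U : Set (GK i₀)} (hU : U ∈ 𝓝 (1 : GK i₀)) :
    ∃ z : PadicAlgCl 2, ∀ t : Au 2, t z = z → rs hi ι t ∈ U := by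
  rw [krullTopology_mem_nhds_one_iff] at hU
  obtain ⟨E, hE1, hE2⟩ := hU
  have hE1' := hE1
  let pb := Field.powerBasisOfFiniteOfSeparable (KK i₀) E
  refine ⟨ι (pb.gen : QB), fun t ht => hE2 ?_⟩
  have h1 : rs hi ι t (pb.gen : QB) = (pb.gen : QB) := by
    apply ι.injective
    have := rs_cmp hi ι t (pb.gen : QB)
    show ι (rs hi ι t (pb.gen : QB)) = ι (pb.gen : QB)
    rw [← this, ht]
  have h2 : (((rs hi ι t : QB ≃ₐ[KK i₀] QB) : QB →ₐ[KK i₀] QB).comp E.val) = E.val :=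
    pb.algHom_ext h1
  show rs hi ι t ∈ E.fixingSubgroup
  rw [IntermediateField.mem_fixingSubgroup_iff]
  intro x hx
  exact congrArg (fun φ : E →ₐ[KK i₀] QB => φ ⟨x, hx⟩) h2

end res

section ev

variable {i₀ : QB} (hi : i₀ ^ 2 = i₀ - 2) {χ : GK i₀ →* ℤ_[2]ˣ} {c : GK i₀ → ℚ_[2]}

/-- the values as integers -/
def ci (hint : ∀ σ, ‖c σ‖ ≤ 1) (σ : GK i₀) : ℤ_[2] := ⟨c σ, hint σ⟩

lemma ci_coe (hint : ∀ σ, ‖c σ‖ ≤ 1) (σ : GK i₀) : ((ci hint σ : ℤ_[2]) : ℚ_[2]) = c σ := rfl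

lemma ci_norm (hint : ∀ σ, ‖c σ‖ ≤ 1) (σ : GK i₀) : ‖ci hint σ‖ = ‖c σ‖ := rfl

/-- the values modulo eight -/
noncomputable def c8 (hint : ∀ σ, ‖c σ‖ ≤ 1) (σ : GK i₀) : ZMod (2 ^ 3) :=
  PadicInt.toZModPow 3 (ci hint σ)

/-- the character modulo eight -/
noncomputable def h8 (χ : GK i₀ →* ℤ_[2]ˣ) (σ : GK i₀) : ZMod (2 ^ 3) :=
  PadicInt.toZModPow 3 ((χ σ : ℤ_[2]ˣ) : ℤ_[2])

lemma h8_eq {χ χ' : GK i₀ →* ℤ_[2]ˣ} {σ σ' : GK i₀} (h : p8 (χ σ) = p8 (χ' σ')) :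
    h8 χ σ = h8 χ' σ' := congrArg Units.val h

lemma h8_mul (χ : GK i₀ →* ℤ_[2]ˣ) (σ τ : GK i₀) : h8 χ (σ * τ) = h8 χ σ * h8 χ τ := by
  unfold h8
  rw [map_mul, Units.val_mul, map_mul]

lemma c8_mul (hc : Coc χ c) (hint : ∀ σ, ‖c σ‖ ≤ 1) (σ τ : GK i₀) :
    c8 hint (σ * τ) = c8 hint σ + h8 χ σ * c8 hint τ := by
  have h : ci hint (σ * τ) = ci hint σ + ((χ σ : ℤ_[2]ˣ) : ℤ_[2]) * ci hint τ := by
    apply Subtype.ext
    exact hc.mul σ τ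
  unfold c8 h8
  rw [h, map_add, map_mul]

lemma c8_even (hint : ∀ σ, ‖c σ‖ ≤ 1) (σ : GK i₀) : md c σ = 0 ↔ 4 * c8 hint σ = 0 := by
  rw [md_zero]
  have h1 : ‖c σ‖ < 1 ↔ (2 : ℤ_[2]) ∣ ci hint σ := by
    have h2 := PadicInt.norm_lt_one_iff_dvd (p := 2) (ci hint σ)
    have e : ((2 : ℕ) : ℤ_[2]) = 2 := by norm_num
    rw [e] at h2
    exact h2
  rw [h1]
  unfold c8
  generalize ci hint σ = z
  have e : (4 : ZMod (2 ^ 3)) * PadicInt.toZModPow 3 z = PadicInt.toZModPow 3 (4 * z) := by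
    rw [map_mul, map_ofNat]
  rw [e, ← dvd8]
  constructor
  · rintro ⟨y, rfl⟩
    exact ⟨y, by ring⟩
  · rintro ⟨y, hy⟩
    refine ⟨y, ?_⟩
    have h4 : (4 : ℤ_[2]) ≠ 0 := by norm_num
    apply mul_left_cancel₀ h4
    rw [hy]
    ring

lemma c8_nhds (hc : Coc χ c) (hint : ∀ σ, ‖c σ‖ ≤ 1) : {σ | c8 hint σ = 0} ∈ 𝓝 (1 : GK i₀) := by
  have h1 : {σ | ‖c σ‖ < 1 / 4} ∈ 𝓝 (1 : GK i₀) := by
    apply IsOpen.mem_nhds
    · exact isOpen_lt (by have := hc.cont; fun_prop) continuous_const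
    · show ‖c 1‖ < 1 / 4
      rw [hc.one, norm_zero]
      norm_num
  filter_upwards [h1] with σ hσ
  show c8 hint σ = 0
  unfold c8
  rw [← dvd8]
  have h2 : ‖ci hint σ‖ ≤ (2 : ℝ) ^ (-(3 : ℕ) : ℤ) := by
    have h3 : ‖c σ‖ < 1 / 4 := hσ
    rw [ci_norm]
    have h4 : ‖c σ / 4‖ < 1 := by
      have e : (4 : ℚ_[2]) = 2 * 2 := by norm_num
      rw [norm_div, e, norm_mul, norm_two', div_lt_one (by norm_num)]
      linarith
    have h5 := norm_lt_one h4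
    have e : (4 : ℚ_[2]) = 2 * 2 := by norm_num
    rw [norm_div, e, norm_mul, norm_two'] at h5
    norm_num at h5 ⊢
    linarith
  have h3 := (PadicInt.norm_le_pow_iff_mem_span_pow (p := 2) _ 3).1 h2
  rw [Ideal.mem_span_singleton] at h3
  have e : ((2 : ℕ) : ℤ_[2]) ^ 3 = 8 := by norm_num
  rwa [e] at h3

lemma act_zt {ι : QB →ₐ[ℚ] PadicAlgCl 2} {ξ : QB} (hξ : IsPrimitiveRoot ξ 8) (t : Au 2)
    (a : ZMod (2 ^ 3)) : t (zt (ι ξ) a) = zt (ι ξ) (h8 (cyc i₀) (rs hi ι t) * a) := by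
  have hζ : IsPrimitiveRoot (ι ξ) 8 := hξ.map_of_injective ι.injective
  unfold zt
  have h2 := cyc_spec (rs hi ι t) (n := 3) (t := ξ) (by
    have : (2 : ℕ) ^ 3 = 8 := by norm_num
    rw [this]; exact hξ.pow_eq_one)
  have h3 : t (ι ξ) = (ι ξ) ^ (ZMod.val (h8 (cyc i₀) (rs hi ι t))) := by
    rw [rs_cmp hi ι t ξ, h2, map_pow]
    rfl
  rw [map_pow, h3, ← pow_mul, ZMod.val_mul]
  exact (pow_eq_pow_mod _ hζ.pow_eq_one)

/-- the eigenvector -/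
lemma exists_z (hc : Coc χ c) (hint : ∀ σ, ‖c σ‖ ≤ 1) {ι : QB →ₐ[ℚ] PadicAlgCl 2}
    (h1 : ∀ σ ∈ (II ι : Set (GK i₀)), p8 (χ σ) = p8 (cyc i₀ σ)) {ξ : QB}
    (hξ : IsPrimitiveRoot ξ 8) : ∃ z : PadicAlgCl 2, z ≠ 0 ∧
      ∀ t : Au 2, (∀ x ∈ kur 2, t x = x) → t z = zt (ι ξ) (c8 hint (rs hi ι t)) * z := by
  have hζ : IsPrimitiveRoot (ι ξ) 8 := hξ.map_of_injective ι.injective
  have hact := fun (t : Au 2) (a : ZMod (2 ^ 3)) => act_zt hi (ι := ι) hξ t a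
  let F := kur 2
  let R : (PadicAlgCl 2 ≃ₐ[F] PadicAlgCl 2) → Au 2 := fun σ => σ.restrictScalars ℚ_[2]
  have hR : ∀ (σ : PadicAlgCl 2 ≃ₐ[F] PadicAlgCl 2) (x : PadicAlgCl 2), R σ x = σ x :=
    fun _ _ => rfl
  have hfix : ∀ (σ : PadicAlgCl 2 ≃ₐ[F] PadicAlgCl 2), ∀ x ∈ kur 2, R σ x = x := fun σ x hx =>
    σ.commutes ⟨x, hx⟩
  have hII : ∀ t : Au 2, (∀ x ∈ kur 2, t x = x) → rs hi ι t ∈ (II ι : Set (GK i₀)) := fun t ht =>
    ⟨t, rs_cmp hi ι t, inert_of_kur ht⟩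
  obtain ⟨z, hz, hz2⟩ := h90 (F := F) (K := PadicAlgCl 2)
    (fun σ => zt (ι ξ) (c8 hint (rs hi ι (R σ)))) (fun σ => zt_ne hζ _) (fun σ τ => by
      have e : R (σ * τ) = R σ * R τ := rfl
      show zt (ι ξ) (c8 hint (rs hi ι (R (σ * τ)))) = zt (ι ξ) (c8 hint (rs hi ι (R σ))) *
        (R σ) (zt (ι ξ) (c8 hint (rs hi ι (R τ))))
      rw [e, rs_mul, c8_mul hc hint, zt_add hζ, hact, h8_eq (h1 _ (hII _ (hfix σ))).symm])
    (by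
      obtain ⟨y, hy⟩ := rs_nhds hi ι (c8_nhds hc hint)
      have h5 : {σ : PadicAlgCl 2 ≃ₐ[F] PadicAlgCl 2 | σ y = y} ∈
          𝓝 (1 : PadicAlgCl 2 ≃ₐ[F] PadicAlgCl 2) := by
        have h6 := Pool.Agent.W309.TD.locConst_apply (K := F) (Ω := PadicAlgCl 2) y
        exact (h6.isOpen_fiber y).mem_nhds rfl
      filter_upwards [h5] with σ hσ
      show zt (ι ξ) (c8 hint (rs hi ι (R σ))) = 1
      have h7 : c8 hint (rs hi ι (R σ)) = 0 := hy (R σ) hσ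
      rw [h7, zt_zero])
  refine ⟨z, hz, fun t ht => ?_⟩
  have hγ : t ∈ F.fixingSubgroup := by
    rw [IntermediateField.mem_fixingSubgroup_iff]
    exact ht
  have h := hz2 (IntermediateField.fixingSubgroupEquiv F ⟨t, hγ⟩)
  have h2 : R (IntermediateField.fixingSubgroupEquiv F ⟨t, hγ⟩) = t := by
    ext x
    rfl
  rw [h2] at h
  exact h

lemma zt_norm {ζ : PadicAlgCl 2} (hζ : IsPrimitiveRoot ζ 8) (a : ZMod (2 ^ 3)) : ‖zt ζ a‖ = 1 := by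
  have h1 : ‖ζ‖ ^ 8 = 1 := by rw [← norm_pow, hζ.pow_eq_one, norm_one]
  have h2 : ‖ζ‖ = 1 := (pow_eq_one_iff_of_nonneg (norm_nonneg _) (by norm_num)).1 h1
  unfold zt
  rw [norm_pow, h2, one_pow]

include hi in
/-- **The valuation is even.** -/
theorem even_val (hc : Coc χ c) (hint : ∀ σ, ‖c σ‖ ≤ 1) {ι : QB →ₐ[ℚ] PadicAlgCl 2}
    (h1 : ∀ σ ∈ (II ι : Set (GK i₀)), p8 (χ σ) = p8 (cyc i₀ σ)) {φ : GK i₀} (hφ : φ ∈ DD ι)
    (h2 : p8 (χ φ) ≠ p8 (cyc i₀ φ)) {s : QB} (hs0 : s ≠ 0)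
    (hs : ∀ σ : GK i₀, σ s = s ∨ σ s = -s) (hk : ∀ σ : GK i₀, σ s = s ↔ md c σ = 0) :
    ∃ m : ℤ, ‖ι s‖ = (2 : ℝ) ^ m := by
  obtain ⟨ξ, hξ⟩ : ∃ ξ : QB, IsPrimitiveRoot ξ 8 := HasEnoughRootsOfUnity.exists_primitiveRoot QB 8
  have hζ : IsPrimitiveRoot (ι ξ) 8 := hξ.map_of_injective ι.injective
  obtain ⟨z, hz, hz2⟩ := exists_z hi hc hint h1 hξ
  have hιs0 : ι s ≠ 0 := (map_ne_zero ι).2 hs0
  have hII : ∀ t : Au 2, (∀ x ∈ kur 2, t x = x) → rs hi ι t ∈ (II ι : Set (GK i₀)) := fun t ht =>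
    ⟨t, rs_cmp hi ι t, inert_of_kur ht⟩
  -- the first relation
  obtain ⟨m1, hm1⟩ : ∃ m1 : ℤ, ‖z ^ 4 / ι s‖ = ((2 : ℕ) : ℝ) ^ m1 := by
    refine norm_ne (div_ne_zero (pow_ne_zero _ hz) hιs0) (mem_kur fun τ hτ => ?_)
    rw [map_div₀, map_pow, hz2 τ hτ, mul_pow, rs_cmp hi ι τ]
    have e4 : zt (ι ξ) (c8 hint (rs hi ι τ)) ^ 4 = zt (ι ξ) (4 * c8 hint (rs hi ι τ)) :=
      (zt_mul hζ 4 _).symm
    rw [e4]
    by_cases hmd : md c (rs hi ι τ) = 0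
    · rw [(c8_even hint _).1 hmd, zt_zero, one_mul, (hk _).2 hmd]
    · have h3 : ∀ x : ZMod (2 ^ 3), 4 * x = 0 ∨ 4 * x = 4 := by decide
      have h4 : 4 * c8 hint (rs hi ι τ) = 4 := (h3 _).resolve_left fun h => hmd ((c8_even hint _).2 h)
      have h5 : (rs hi ι τ) s = -s := (hs _).resolve_left fun h => hmd ((hk _).1 h)
      rw [h4, zt_four hζ, h5, map_neg, neg_one_mul, neg_div_neg_eq]
  -- the second relation
  obtain ⟨m3, hm3⟩ : ∃ m3 : ℤ, ‖z ^ 8‖ = ((2 : ℕ) : ℝ) ^ m3 := by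
    refine norm_ne (pow_ne_zero _ hz) (mem_kur fun τ hτ => ?_)
    rw [map_pow, hz2 τ hτ, mul_pow]
    have e8 : zt (ι ξ) (c8 hint (rs hi ι τ)) ^ 8 = 1 := by
      unfold zt
      rw [← pow_mul, mul_comm, pow_mul, hζ.pow_eq_one, one_pow]
    rw [e8, one_mul]
  -- the third relation
  obtain ⟨t0, ht0⟩ := hφ
  have hr0 : rs hi ι t0 = φ := cmp_uniq ι (rs_cmp hi ι t0) ht0
  set u : (ZMod (2 ^ 3))ˣ := p8 (cyc i₀ φ) * (p8 (χ φ))⁻¹ with hu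
  have hu1 : u ≠ 1 := by
    intro h
    apply h2
    rw [hu, mul_inv_eq_one] at h
    exact h.symm
  set a : ZMod (2 ^ 3) := (u : ZMod (2 ^ 3)) with ha
  have hau : a * h8 χ φ = h8 (cyc i₀) φ := by
    have h3 : u * p8 (χ φ) = p8 (cyc i₀ φ) := by rw [hu, inv_mul_cancel_right]
    exact congrArg Units.val h3
  obtain ⟨m2, hm2⟩ : ∃ m2 : ℤ, ‖t0 z / (z ^ (ZMod.val a) * zt (ι ξ) (a * c8 hint φ))‖ =
      ((2 : ℕ) : ℝ) ^ m2 := by
    refine norm_ne (div_ne_zero ((map_ne_zero t0).2 hz) (mul_ne_zero (pow_ne_zero _ hz)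
      (zt_ne hζ _))) (mem_kur fun τ hτ => ?_)
    have hτ' := conj_kur (t0 := t0) hτ
    have e1 : τ (t0 z) = t0 ((t0⁻¹ * τ * t0) z) := by
      rw [← AlgEquiv.mul_apply t0, ← mul_assoc, ← mul_assoc, mul_inv_cancel, one_mul,
        AlgEquiv.mul_apply]
    have e2 : rs hi ι (t0⁻¹ * τ * t0) = φ⁻¹ * rs hi ι τ * φ := by
      rw [rs_mul, rs_mul, rs_inv, hr0]
    have e3 : h8 χ φ * c8 hint (φ⁻¹ * rs hi ι τ * φ) =
        c8 hint (rs hi ι τ) + h8 χ (rs hi ι τ) * c8 hint φ - c8 hint φ := by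
      have e4 := c8_mul hc hint φ (φ⁻¹ * rs hi ι τ * φ)
      have e5 : φ * (φ⁻¹ * rs hi ι τ * φ) = rs hi ι τ * φ := by group
      rw [e5, c8_mul hc hint] at e4
      rw [e4]
      ring
    have e6 : h8 (cyc i₀) φ * c8 hint (φ⁻¹ * rs hi ι τ * φ) =
        a * (c8 hint (rs hi ι τ) + h8 χ (rs hi ι τ) * c8 hint φ - c8 hint φ) := by
      rw [← hau, mul_assoc, e3]
    rw [map_div₀, e1, hz2 _ hτ', e2, map_mul, act_zt hi hξ, hr0, e6, map_mul, map_pow, hz2 τ hτ,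
      mul_pow, act_zt hi hξ, ← zt_mul hζ, ← h8_eq (h1 _ (hII τ hτ))]
    rw [div_eq_div_iff (mul_ne_zero (mul_ne_zero (zt_ne hζ _) (pow_ne_zero _ hz)) (zt_ne hζ _))
      (mul_ne_zero (pow_ne_zero _ hz) (zt_ne hζ _))]
    have e7 : zt (ι ξ) (a * (c8 hint (rs hi ι τ) + h8 χ (rs hi ι τ) * c8 hint φ - c8 hint φ)) *
        zt (ι ξ) (a * c8 hint φ) = zt (ι ξ) (a * c8 hint (rs hi ι τ)) *
        zt (ι ξ) (h8 χ (rs hi ι τ) * (a * c8 hint φ)) := by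
      rw [← zt_add hζ, ← zt_add hζ]
      congr 1
      ring
    linear_combination (t0 z * z ^ (ZMod.val a)) * e7
  -- conclusion
  have hN : 0 < ‖z‖ := norm_pos_iff.2 hz
  have h20 : ((2 : ℕ) : ℝ) ≠ 0 := by norm_num
  rw [norm_div, norm_mul, zt_norm hζ, mul_one, nrm, norm_pow] at hm2
  rw [norm_div, norm_pow] at hm1
  rw [norm_pow] at hm3
  have hιn : 0 < ‖ι s‖ := norm_pos_iff.2 hιs0
  have key : ∃ m4 : ℤ, ‖z‖ ^ 4 = ((2 : ℕ) : ℝ) ^ m4 := by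
    have hval : ∀ x : (ZMod (2 ^ 3))ˣ, x ≠ 1 → (ZMod.val (x : ZMod (2 ^ 3)) = 3 ∨
        ZMod.val (x : ZMod (2 ^ 3)) = 5 ∨ ZMod.val (x : ZMod (2 ^ 3)) = 7) := by decide
    rcases hval u hu1 with h3 | h3 | h3
    · rw [← ha] at h3
      rw [h3] at hm2
      refine ⟨-m2 + -m2, ?_⟩
      rw [zpow_add₀ h20, zpow_neg, ← hm2]
      field_simp
    · rw [← ha] at h3
      rw [h3] at hm2
      refine ⟨-m2, ?_⟩
      rw [zpow_neg, ← hm2]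
      field_simp
    · rw [← ha] at h3
      rw [h3] at hm2
      refine ⟨-m2 + -m2 + -m3, ?_⟩
      rw [zpow_add₀ h20, zpow_add₀ h20, zpow_neg, zpow_neg, ← hm2, ← hm3]
      field_simp
  obtain ⟨m4, hm4⟩ := key
  refine ⟨m4 - m1, ?_⟩
  have e : ‖ι s‖ = ‖z‖ ^ 4 / (‖z‖ ^ 4 / ‖ι s‖) := by
    field_simp
  rw [e, hm1, hm4]
  push_cast
  rw [← zpow_sub₀ (by norm_num)]

end ev

end Pool.Agent.N848.W
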