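import Pool.Agent.N848.W.Ev
import Pool.Agent.R384.Core

/-!
# The places above two
-/

set_option autoImplicit false
set_option linter.unusedSectionVars false

namespace Pool.Agent.N848.W

open Pool.Agent.R384
open Pool.Agent.Y715.Red Pool.Agent.Y715.Nr Pool.Agent.W237.RK
open Pool.Agent.Y715.Gi (QB KK GK i₀_mem gk_fix)
open Pool.Agent.Y715.Df (Cmp exists_cmp)

open scoped Classical

lemma n2 : ‖(2 : PadicAlgCl 2)‖ = 1 / 2 := by
  rw [Pool.Agent.Y715.Gi.norm_two']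
  norm_num

/-- square roots of elements congruent to one modulo four are unramified -/
lemma ur_fix {z : PadicAlgCl 2} (hz : ‖z ^ 2 - 1‖ ≤ 1 / 4) {τ : Au 2} (hτ : Inert τ)
    (h : τ (z ^ 2) = z ^ 2) : τ z = z := by
  have h1 : (τ z) ^ 2 = z ^ 2 := by rw [← map_pow, h]
  rcases sq_eq_sq_iff_eq_or_eq_neg.1 h1 with h2 | h2
  · exact h2
  exfalso
  set y := (z - 1) / 2 with hy
  have h20 : (2 : PadicAlgCl 2) ≠ 0 := two_ne_zero
  have h4 : ‖y * (y + 1)‖ ≤ 1 := by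
    have e : y * (y + 1) = (z ^ 2 - 1) / (2 * 2) := by
      rw [hy]
      field_simp
      ring
    rw [e, norm_div, norm_mul, n2, div_le_one (by norm_num)]
    linarith
  have h5 : ‖y‖ ≤ 1 := by
    by_contra hcon
    push Not at hcon
    have h6 : ‖y + 1‖ = ‖y‖ := eq_of_lt (by rwa [norm_one])
    rw [norm_mul, h6] at h4
    nlinarith
  have h6 := hτ y h5
  have e : τ y - y = -(2 * y + 1) := by
    rw [hy, map_div₀, map_sub, map_one, map_ofNat, h2]
    field_simp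
    ring
  rw [e, norm_neg] at h6
  have h7 : ‖(1 : PadicAlgCl 2)‖ < 1 := by
    have e : (1 : PadicAlgCl 2) = (2 * y + 1) - 2 * y := by ring
    rw [e]
    refine sub_lt h6 ?_
    rw [norm_mul, n2]
    linarith
  rw [norm_one] at h7
  exact lt_irrefl _ h7

section

variable {w : PadicAlgCl 2} (hw : w ^ 2 = w - 2)

/-- units of `ℤ[ω]` at a place above two -/
lemma unit_near {x : OO} (hx : ¬ ‖em hw x‖ < 1) : ‖em hw x - 1‖ < 1 := by
  obtain ⟨a, ha⟩ := near (em_le hw x) fun τ => em_fix hw (two_fix hw τ) x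
  rcases Int.even_or_odd a with h | h
  · exfalso
    apply hx
    obtain ⟨k, hk⟩ := h
    have e : em hw x = (em hw x - a) + 2 * (k : PadicAlgCl 2) := by
      rw [hk]; push_cast; ring
    rw [e]
    refine add_lt ha ?_
    rw [norm_mul, n2]
    have := IsUltrametricDist.norm_intCast_le_one (PadicAlgCl 2) k
    linarith
  · obtain ⟨k, hk⟩ := h
    have e : em hw x - 1 = (em hw x - a) + 2 * (k : PadicAlgCl 2) := by
      rw [hk]; push_cast; ring
    rw [e]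
    refine add_lt ha ?_
    rw [norm_mul, n2]
    have := IsUltrametricDist.norm_intCast_le_one (PadicAlgCl 2) k
    linarith

/-- a unit whose square root is unramified is congruent to one modulo four -/
lemma ur_conv {x : OO} {s : PadicAlgCl 2} (hs : s ^ 2 = em hw x) (hx : ¬ ‖em hw x‖ < 1)
    (hfix : ∀ τ : Au 2, Inert τ → τ w = w → τ s = s) : ‖em hw x - 1‖ ≤ 1 / 4 := by
  have h1 := unit_near hw hx
  have h2 : ‖s - 1‖ < 1 := by
    by_contra hcon
    push Not at hcon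
    have h3 : ‖s‖ = 1 := by
      have h3 := eq_one_of_not_lt hw hx
      rw [← hs, norm_pow] at h3
      exact (pow_eq_one_iff_of_nonneg (norm_nonneg _) two_ne_zero).1 h3
    have h4 : ‖(s - 1) ^ 2‖ < 1 := by
      have e : (s - 1) ^ 2 = (em hw x - 1) + 2 * (1 - s) := by rw [← hs]; ring
      rw [e]
      refine add_lt h1 ?_
      rw [norm_mul, n2]
      have h5 : ‖1 - s‖ ≤ 1 := sub_le (by rw [norm_one]) h3.le
      linarith
    rw [norm_pow] at h4
    nlinarith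
  have h3 : ‖s - 1‖ ≤ 1 / 2 := by
    by_cases h0 : s - 1 = 0
    · rw [h0, norm_zero]; norm_num
    · obtain ⟨m, hm⟩ := Pool.Agent.R384.norm_odd hw (by norm_num) h0 (fun τ h4 h5 => by
        rw [map_sub, map_one, hfix τ h4 h5])
      rw [hm] at h2 ⊢
      have h5 : m < 0 := by
        by_contra hcon
        push Not at hcon
        have := one_le_zpow₀ (a := ((2 : ℕ) : ℝ)) (by norm_num) hcon
        linarith
      calc ((2 : ℕ) : ℝ) ^ m ≤ ((2 : ℕ) : ℝ) ^ (-1 : ℤ) :=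
            zpow_le_zpow_right₀ (by norm_num) (by omega)
        _ = 1 / 2 := by norm_num
  have h4 : ‖s + 1‖ ≤ 1 / 2 := by
    have e : s + 1 = (s - 1) + 2 := by ring
    rw [e]
    exact add_le h3 n2.le
  have e : em hw x - 1 = (s - 1) * (s + 1) := by rw [← hs]; ring
  rw [e, norm_mul]
  calc ‖s - 1‖ * ‖s + 1‖ ≤ 1 / 2 * (1 / 2) := mul_le_mul h3 h4 (norm_nonneg _) (by norm_num)
    _ = 1 / 4 := by norm_num

end

variable {i₀ : QB} (hi : i₀ ^ 2 = i₀ - 2) {χ : GK i₀ →* ℤ_[2]ˣ} {m g : OO} {r t : QB}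

/-- the inertia groups of the places above two fix the roots of the elements congruent to one modulo
four -/
lemma fix4 {ι : QB →ₐ[ℚ] PadicAlgCl 2} (hr : r ^ 2 = em hi m)
    (hm : ‖em (iw hi ι) m - 1‖ ≤ 1 / 4) {σ : GK i₀} (hσ : σ ∈ II ι) : σ r = r := by
  obtain ⟨τ, hτ, hin⟩ := hσ
  have h1 : (ι r) ^ 2 = em (iw hi ι) m := by rw [← map_pow, hr, ι_em]
  have h2 : τ (ι r) = ι r := by
    refine ur_fix (by rwa [h1]) hin ?_
    rw [h1]
    exact em_fix (iw hi ι) hτ.fix m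
  apply ι.injective
  show ι (σ r) = ι r
  rw [← hτ, h2]

lemma five_dec {ι : QB →ₐ[ℚ] PadicAlgCl 2} (ht : t ^ 2 = em hi g)
    (hg : ‖em (iw hi ι) g - 5‖ ≤ 1 / 8) : ∃ σ ∈ (DD ι : Set (GK i₀)), σ t = -t :=
  exists_dec' hi (z := 5) (n := 2) (k := 1) (by norm_num) (by norm_num) (by norm_num) (by norm_num)
    ι (by push_cast; exact hg) ht

lemma four_of_five {x : PadicAlgCl 2} (hg : ‖x - 5‖ ≤ 1 / 8) : ‖x - 1‖ ≤ 1 / 4 := by
  have e : x - 1 = (x - 5) + 4 := by ring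
  rw [e]
  have h4 : ‖(4 : PadicAlgCl 2)‖ = 1 / 4 := by
    have e : (4 : PadicAlgCl 2) = 2 * 2 := by norm_num
    rw [e, norm_mul, n2]
    norm_num
  exact add_le (hg.trans (by norm_num)) h4.le

lemma ne_neg {t : QB} (ht : t ≠ 0) : t ≠ -t := fun h => by
  have h2 : (2 : QB) * t = 0 := by linear_combination h
  exact ht ((mul_eq_zero.1 h2).resolve_left two_ne_zero)

lemma t_ne (ht : t ^ 2 = em hi g) (hg0 : g ≠ 0) : t ≠ 0 := by
  intro h
  rw [h, zero_pow two_ne_zero] at ht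
  exact hg0 (em_inj hi ht.symm)

lemma small_of_p8 {σ : GK i₀} (h : p8 (χ σ) = 1) : ‖vl χ σ - 1‖ ≤ 1 / 8 := by
  rw [p8_one] at h
  obtain ⟨y, hy⟩ := h
  have e : vl χ σ - 1 = (((χ σ : ℤ_[2]) - 1 : ℤ_[2]) : ℚ_[2]) := by
    unfold vl
    push_cast
    rfl
  rw [e, PadicInt.padic_norm_e_of_padicInt, hy, norm_mul]
  have h8 : ‖(8 : ℤ_[2])‖ = 1 / 8 := by
    have e : (8 : ℤ_[2]) = ((2 : ℕ) : ℤ_[2]) ^ 3 := by norm_num
    rw [e, norm_pow, PadicInt.norm_p]
    norm_num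
  rw [h8]
  have := PadicInt.norm_le_one y
  linarith

lemma p8_of_small {σ : GK i₀} (h : ‖vl χ σ - 1‖ ≤ 1 / 8) : p8 (χ σ) = 1 := by
  rw [p8_one]
  have e : vl χ σ - 1 = (((χ σ : ℤ_[2]) - 1 : ℤ_[2]) : ℚ_[2]) := by
    unfold vl
    push_cast
    rfl
  rw [e, PadicInt.padic_norm_e_of_padicInt] at h
  have h2 : ‖(χ σ : ℤ_[2]) - 1‖ ≤ (2 : ℝ) ^ (-(3 : ℕ) : ℤ) := by
    refine h.trans (le_of_eq ?_)
    norm_num
  have h3 := (PadicInt.norm_le_pow_iff_mem_span_pow (p := 2) _ 3).1 h2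
  rw [Ideal.mem_span_singleton] at h3
  have e : ((2 : ℕ) : ℤ_[2]) ^ 3 = 8 := by norm_num
  rwa [e] at h3

lemma big_of_p8 {σ : GK i₀} (h : p8 (χ σ) ≠ 1) : 1 / 4 ≤ ‖vl χ σ - 1‖ := by
  by_contra hcon
  push Not at hcon
  apply h
  apply p8_of_small
  have h1 : ‖(vl χ σ - 1) / 4‖ < 1 := by
    have e : (4 : ℚ_[2]) = 2 * 2 := by norm_num
    rw [norm_div, e, norm_mul, norm_two', div_lt_one (by norm_num)]
    linarith
  have h2 := norm_lt_one h1
  have e : (4 : ℚ_[2]) = 2 * 2 := by norm_num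
  rw [norm_div, e, norm_mul, norm_two'] at h2
  norm_num at h2
  linarith

/-- **The strict place.** -/
theorem strict_unr (cd : ChiD hi χ m r) (he : E8 χ t) (ht : t ^ 2 = em hi g) (hg0 : g ≠ 0)
    {ι : QB →ₐ[ℚ] PadicAlgCl 2} (hm : ‖em (iw hi ι) m - 1‖ ≤ 1 / 4)
    (hg : ‖em (iw hi ι) g - 5‖ ≤ 1 / 8) {c : GK i₀ → ℚ_[2]} (hint : ∀ σ, ‖c σ‖ ≤ 1)
    (hD : CobOn χ (DD ι) c) : ∀ σ ∈ (II ι : Set (GK i₀)), md c σ = 0 := by
  obtain ⟨y, hy⟩ := hD
  obtain ⟨φ, hφ, hφt⟩ := five_dec hi ht hg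
  have h1 : p8 (χ φ) ≠ 1 := by
    intro h
    have h2 := (he φ).2 (Or.inl h)
    rw [hφt] at h2
    exact ne_neg (t_ne hi ht hg0) h2.symm
  have h2 := big_of_p8 h1
  have h3 : ‖y‖ ≤ 4 := by
    have h4 := hint φ
    rw [hy φ hφ, norm_mul] at h4
    nlinarith [norm_nonneg y]
  intro τ hτ
  have h4 : p8 (χ τ) = 1 := by
    have h5 := fix4 hi cd.hr hm hτ
    have h6 := fix4 hi ht (four_of_five hg) hτ
    rcases (he τ).1 h6 with h7 | h7
    · exact h7
    · exfalso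
      have h8 := ph_one.2 (cd.one τ h5)
      rw [p8_neg] at h7
      have h9 : (4 : ℤ_[2]) ∣ (χ τ : ℤ_[2]) + 1 := dvd_trans ⟨2, by norm_num⟩ h7
      rw [← ph_neg, h8] at h9
      exact absurd h9 (by decide)
  rw [md_zero, hy τ (II_sub hτ), norm_mul]
  have h5 := small_of_p8 h4
  nlinarith [norm_nonneg y, norm_nonneg (vl χ τ - 1)]

/-- **The place without condition.** -/
theorem free_even (cd : ChiD hi χ m r) (he : E8 χ t) {ϖ ϖ' : OO} (hϖ : ϖ * ϖ' = 2)
    (ht : t ^ 2 = em hi (-ϖ')) {ι : QB →ₐ[ℚ] PadicAlgCl 2} (hm : ‖em (iw hi ι) m + 1‖ ≤ 1 / 4)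
    (hg : ‖em (iw hi ι) (-ϖ) - 5‖ ≤ 1 / 8) {c : GK i₀ → ℚ_[2]} (hc : Coc χ c)
    (hint : ∀ σ, ‖c σ‖ ≤ 1) {s : QB} (hs0 : s ≠ 0) (hs : ∀ σ : GK i₀, σ s = s ∨ σ s = -s)
    (hk : ∀ σ : GK i₀, σ s = s ↔ md c σ = 0) : ∃ k : ℤ, ‖ι s‖ = (2 : ℝ) ^ k := by
  have h20 : ϖ * ϖ' ≠ 0 := by rw [hϖ]; norm_num
  have hϖ0 : ϖ ≠ 0 := left_ne_zero_of_mul h20
  have hϖ0' : ϖ' ≠ 0 := right_ne_zero_of_mul h20
  obtain ⟨ξ, hξ⟩ : ∃ ξ : QB, IsPrimitiveRoot ξ 8 := HasEnoughRootsOfUnity.exists_primitiveRoot QB 8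
  have hξ4 : ξ ^ 4 = -1 := zt_four hξ
  have hξ0 : ξ ≠ 0 := hξ.ne_zero (by norm_num)
  set I : QB := ξ ^ 2 with hI
  have hI2 : I ^ 2 = -1 := by rw [hI, ← pow_mul]; exact hξ4
  -- the square root of two
  set q : QB := ξ + ξ⁻¹ with hq
  have hinv : ξ⁻¹ = -ξ ^ 3 := by
    apply inv_eq_of_mul_eq_one_right
    linear_combination -hξ4
  have hq2 : q ^ 2 = 2 := by
    rw [hq, hinv]
    linear_combination (ξ ^ 2 - 2) * hξ4
  -- the character of the square root of two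
  have hcq : ∀ σ : GK i₀, σ q = q ↔ (p8 (cyc i₀ σ) = 1 ∨ p8 (cyc i₀ σ) = -1) := by
    intro σ
    have h1 := cyc_spec σ (n := 3) (t := ξ) (by
      have : (2 : ℕ) ^ 3 = 8 := by norm_num
      rw [this]; exact hξ.pow_eq_one)
    have h2 : ∀ u : (ZMod (2 ^ 3))ˣ, (u = 1 ∨ u = -1 ∨ ZMod.val (u : ZMod (2 ^ 3)) = 3 ∨
        ZMod.val (u : ZMod (2 ^ 3)) = 5) ∧ (u = 1 → ZMod.val (u : ZMod (2 ^ 3)) = 1) ∧
        (u = -1 → ZMod.val (u : ZMod (2 ^ 3)) = 7) := by decide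
    obtain ⟨h3, h4, h5⟩ := h2 (p8 (cyc i₀ σ))
    have h6 : ZMod.val ((p8 (cyc i₀ σ) : (ZMod (2 ^ 3))ˣ) : ZMod (2 ^ 3)) =
      (((cyc i₀ σ : ℤ_[2]ˣ) : ℤ_[2]).toZModPow 3).val := rfl
    have hq0 : q ≠ 0 := by
      intro h
      rw [h] at hq2
      norm_num at hq2
    have hneg : ∀ k : ℕ, σ ξ = ξ ^ k → (k = 3 ∨ k = 5) → σ q = -q := by
      rintro k h7 (rfl | rfl)
      · rw [hq, hinv, map_add, map_neg, map_pow, h7]
        linear_combination (-(ξ ^ 5) + ξ) * hξ4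
      · rw [hq, hinv, map_add, map_neg, map_pow, h7]
        linear_combination (-(ξ ^ 11) + ξ ^ 7 - ξ ^ 3 + ξ) * hξ4
    constructor
    · intro h7
      rcases h3 with h8 | h8 | h8 | h8
      · exact Or.inl h8
      · exact Or.inr h8
      · exfalso
        rw [hneg 3 (by rw [h1, ← h6, h8]) (Or.inl rfl)] at h7
        exact ne_neg hq0 h7.symm
      · exfalso
        rw [hneg 5 (by rw [h1, ← h6, h8]) (Or.inr rfl)] at h7
        exact ne_neg hq0 h7.symm
    · rintro (h7 | h7)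
      · have h8 : σ ξ = ξ := by rw [h1, ← h6, h4 h7, pow_one]
        rw [hq, map_add, map_inv₀, h8]
      · have h8 : σ ξ = ξ⁻¹ := by
          rw [h1, ← h6, h5 h7, hinv]
          linear_combination ξ ^ 3 * hξ4
        rw [hq, map_add, map_inv₀, h8, inv_inv, add_comm]
  -- the unramified extension
  have hew : em hi ϖ' ≠ 0 := em_ne hi hϖ0'
  set s0 : QB := q * t / em hi ϖ' with hs0d
  have hs0sq : s0 ^ 2 = em hi (-ϖ) := by
    rw [hs0d, div_pow, mul_pow, hq2, ht, div_eq_iff (pow_ne_zero _ hew), ← map_pow, ← map_mul]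
    have e2 : (2 : QB) = em hi (ϖ * ϖ') := by rw [hϖ, map_ofNat]
    rw [e2, ← map_mul]
    congr 1
    ring
  have hs00 : s0 ≠ 0 := t_ne hi hs0sq (neg_ne_zero.2 hϖ0)
  have hq0 : q ≠ 0 := by
    intro h
    rw [h] at hq2
    norm_num at hq2
  have ht0 : t ≠ 0 := t_ne hi ht (neg_ne_zero.2 hϖ0')
  have hqs : ∀ σ : GK i₀, σ q = q ∨ σ q = -q := by
    intro σ
    apply sq_eq_sq_iff_eq_or_eq_neg.1
    rw [← map_pow, hq2, map_ofNat]
  have hts : ∀ σ : GK i₀, σ t = t ∨ σ t = -t := fun σ => rt_or hi ht σ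
  have hmul : ∀ σ : GK i₀, σ s0 = s0 ↔ (σ q = q ↔ σ t = t) := by
    intro σ
    have e : σ s0 = σ q * σ t / em hi ϖ' := by
      rw [hs0d, map_div₀, map_mul, gk_em]
    rcases hqs σ with h1 | h1 <;> rcases hts σ with h2 | h2
    · rw [e, h1, h2]
      simp [hs0d]
    · have h3 : ¬ σ s0 = s0 := by
        rw [e, h1, h2, mul_neg, neg_div]
        exact fun h => ne_neg hs00 h.symm
      have h4 : ¬ σ t = t := by rw [h2]; exact fun h => ne_neg ht0 h.symm
      simp [h1, h3, h4]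
    · have h3 : ¬ σ s0 = s0 := by
        rw [e, h1, h2, neg_mul, neg_div]
        exact fun h => ne_neg hs00 h.symm
      have h4 : ¬ σ q = q := by rw [h1]; exact fun h => ne_neg hq0 h.symm
      simp [h2, h3, h4]
    · have h3 : σ s0 = s0 := by
        rw [e, h1, h2, neg_mul_neg]
      have h4 : ¬ σ t = t := by rw [h2]; exact fun h => ne_neg ht0 h.symm
      have h5 : ¬ σ q = q := by rw [h1]; exact fun h => ne_neg hq0 h.symm
      simp [h3, h4, h5]
  -- the inertia group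
  have hII : ∀ σ ∈ (II ι : Set (GK i₀)), p8 (χ σ) = p8 (cyc i₀ σ) := by
    intro σ hσ
    refine p8_of ?_ ?_
    · have hIr : (I * r) ^ 2 = em hi (-m) := by
        rw [mul_pow, hI2, cd.hr, map_neg]; ring
      have h1 : σ (I * r) = I * r := by
        refine fix4 hi hIr ?_ hσ
        have e : em (iw hi ι) (-m) - 1 = -(em (iw hi ι) m + 1) := by rw [map_neg]; ring
        rw [e, norm_neg]
        exact hm
      have hI0 : I ≠ 0 := pow_ne_zero _ hξ0
      rcases rt_or hi cd.hr σ with h2 | h2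
      · have h3 : σ I = I := by
          rw [map_mul, h2] at h1
          by_cases hr0 : r = 0
          · exfalso
            have h5 := cd.hr
            rw [hr0, zero_pow two_ne_zero] at h5
            have h6 := em_inj hi h5.symm
            rw [h6, map_zero, zero_add, norm_one] at hm
            norm_num at hm
          · exact mul_right_cancel₀ hr0 h1
        rw [ph_one.2 (cd.one σ h2), ph_one.2 ((cyc_four hI2 σ).1 h3)]
      · have h3 : σ I = -I := by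
          rw [map_mul, h2] at h1
          by_cases hr0 : r = 0
          · exfalso
            have h5 := cd.hr
            rw [hr0, zero_pow two_ne_zero] at h5
            have h6 := em_inj hi h5.symm
            rw [h6, map_zero, zero_add, norm_one] at hm
            norm_num at hm
          · apply mul_right_cancel₀ hr0
            linear_combination -h1
        rw [ph_neg.2 (cd.neg σ h2), ph_neg.2 ((cyc_four hI2 σ).2 h3)]
    · rw [← he σ, ← hcq σ]
      exact ((hmul σ).1 (fix4 hi hs0sq (four_of_five hg) hσ)).symm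
  obtain ⟨φ, hφ, hφs⟩ := five_dec hi hs0sq hg
  refine even_val hi hc hint hII hφ (fun h => ?_) hs0 hs hk
  have h1 : φ s0 = s0 := (hmul φ).2 (by rw [he φ, hcq φ, h])
  rw [hφs] at h1
  exact ne_neg hs00 h1.symm

end Pool.Agent.N848.W
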