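import Pool.Agent.N848.W.Den
import Pool.Agent.N818.TD.Mod

/-!
# The rational twists
-/

set_option autoImplicit false
set_option linter.unusedSectionVars false

namespace Pool.Agent.N848.W

open Pool.Agent.R426
open Pool.Agent.Y698 Pool.Agent.Y698.SG
open Pool.Agent.TH841.NF.D (Sha)
open Pool.Agent.N818.TC (A B Es Rz rz_iff exists_fam)

/-- the criterion over `ℚ` -/
theorem gd_rat {D : ℕ} (hsq : Squarefree D) (h4 : D % 4 = 1) (h7 : ¬ 7 ∣ D) :
    (NS (EC (D : ℚ)) ↔ Rz (A D) (B D)) ∧ (NS (EC (D : ℚ)) → Gd ((D : ℤ) : OZ)) := by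
  classical
  obtain ⟨j, hj⟩ : ∃ j, D = 1 + 4 * j := ⟨D / 4, by omega⟩
  have hE : EC (D : ℚ) = AX ℚ j := by
    unfold EC AX EX
    rw [hj]
    congr 1
    · push_cast; ring
    · push_cast; ring
    · push_cast; ring
  have h1 : NS (EC (D : ℚ)) ↔ Rz (A D) (B D) := by
    rw [Pool.Agent.N818.TD.same hj, hE]
    exact Iff.rfl
  refine ⟨h1, fun h => ?_⟩
  have hsq' : Squarefree (D : ℤ) := Int.squarefree_natCast.2 hsq
  have h4' : (D : ℤ) % 4 = 1 := by omega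
  have h7' : ¬ (7 : ℤ) ∣ (D : ℤ) := fun h => h7 (by exact_mod_cast h)
  obtain ⟨S, hS, hprod, hE⟩ := exists_fam hsq' h4' h7'
  refine gd_of hE ((rz_iff h4' hprod hE).1 (h1.1 h)) ?_
  rw [th_int]
  exact hprod

end Pool.Agent.N848.W
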